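import Pool.Agent.Lib.MP_19e880_co_FV.Poly
import Pool.Agent.Lib.MP_19e880_co_W1.Final

/-!
Certificates from full vertices.
-/

set_option autoImplicit false
set_option linter.unusedSectionVars false

namespace Pool.Agent.MP19e880.LD

open Pool.Agent.MP19e880 Pool.Agent.MP19e880.W1 Pool.Agent.MP19e880.FV

variable {V : Type} [Fintype V] [LinearOrder V] {k : Type} [Field k]

private theorem Cf_empty {S : Finset (Finset V)} {d : ℕ} (h : HS k S d) :
    (∅ : Finset V) ∈ S :=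
  h.flag ∅ (fun a ha => absurd ha (Finset.notMem_empty a))

private theorem Cf_lv0 {S : Finset (Finset V)} (y : V) :
    y ∈ lv S ∅ ↔ ({y} : Finset V) ∈ S := by
  rw [mem_lv, insert_empty_eq]
  simp

/-- A sphere with a vertex which has one non-neighbour is a suspension. -/
theorem susp_cert {S : Finset (Finset V)} {d : ℕ} (h : HS k S d) {x : V} (hx : x ∈ lv S ∅)
    (h1 : (Low.na (Adj S) (lv S ∅) x).card = 1) (n : ℕ) : Cert k d n S := by
  have hE := TT.eul_of_hs h
  obtain ⟨y, hy⟩ := Finset.card_eq_one.mp h1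
  have hym : y ∈ Low.na (Adj S) (lv S ∅) x := by
    rw [hy]
    exact Finset.mem_singleton_self y
  have hy3 := Low.mem_na.mp hym
  have huniq : ∀ z : V, ({z} : Finset V) ∈ S → z ≠ x → ({x, z} : Finset V) ∉ S → z = y := by
    intro z hz hzx hxz
    have : z ∈ Low.na (Adj S) (lv S ∅) x :=
      Low.mem_na.mpr ⟨(Cf_lv0 z).mpr hz, hzx, fun hA => hxz hA.2⟩
    rw [hy] at this
    exact Finset.mem_singleton.mp this
  refine Cert.susp d n S x y ((Cf_lv0 x).mp hx) ((Cf_lv0 y).mp hy3.1) ?_ ?_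
  · intro hxy
    exact hy3.2.2 ⟨hy3.2.1.symm, hxy⟩
  · intro w hw hwx hwy
    have hxw : ({x, w} : Finset V) ∈ S := by
      by_contra hc
      exact hwy (huniq w hw hwx hc)
    refine ⟨hxw, ?_⟩
    have hcw : ({x, w} : Finset V).card = 2 := Finset.card_pair hwx.symm
    have hd2 := h.card_le _ hxw
    obtain ⟨m, hm⟩ : ∃ m, d = m + 2 := ⟨d - 2, by omega⟩
    have hxl : x ∈ lv S {w} := by
      rw [mem_lv]
      exact ⟨fun hc => hwx (Finset.mem_singleton.mp hc).symm, hxw⟩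
    obtain ⟨z, hz⟩ := (fam h hE).na_nonempty m (lv S {w}) x
      ⟨{w}, hw, rfl, by rw [Finset.card_singleton]; omega⟩ hxl
    obtain ⟨hz1, hz2, hz3⟩ := Low.mem_na.mp hz
    rw [mem_lv] at hz1
    have hzS : ({z} : Finset V) ∈ S := h.down _ hz1.2 _ (by simp)
    have hzy := huniq z hzS hz2 (fun hc => hz3 ⟨hz2.symm, hc⟩)
    rw [← hzy]
    exact hz1.2

/-- A cross-polytope is a suspension. -/
theorem oct_cert {S : Finset (Finset V)} {d : ℕ} (h : HS k S d) (hd : 1 ≤ d)
    (hc : (lv S ∅).card ≤ 2 * d) (n : ℕ) : Cert k d n S := by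
  have hE := TT.eul_of_hs h
  have h0 := Cf_empty h
  obtain ⟨m, rfl⟩ : ∃ m, d = m + 1 := ⟨d - 1, by omega⟩
  have h2 := lv_two_mul h (m + 1) ∅ h0 (by simp)
  obtain ⟨x, hx⟩ : (lv S ∅).Nonempty := by
    rw [← Finset.card_pos]
    omega
  have hx' := (mem_lv ∅ x).mp hx
  have hcx : (insert x ∅ : Finset V).card + m = m + 1 := by
    rw [Finset.card_insert_of_notMem hx'.1, Finset.card_empty]
    omega
  have h4 := (fam h hE).card_eq (lv S ∅) x hx
  rw [nb_lv h hE ∅ x hx] at h4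
  have h5 := lv_two_mul h m (insert x ∅) hx'.2 hcx
  have h6 : 0 < (Low.na (Adj S) (lv S ∅) x).card :=
    Finset.card_pos.mpr ((fam h hE).na_nonempty m (lv S ∅) x ⟨∅, h0, rfl, by simp⟩ hx)
  exact susp_cert h hx (by omega) n

/-- A sphere with a full vertex has all certificates. -/
theorem full_cert {d : ℕ} (hd : 3 ≤ d) (x : V) : ∀ (N : ℕ) (S : Finset (Finset V)), HS k S d →
    x ∈ lv S ∅ → gg S (d - 1) {x} = gg S d ∅ → (Low.na (Adj S) (lv S ∅) x).card = N + 1 →
    ∀ n, Cert k d n S := by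
  intro N
  induction N with
  | zero =>
    intro S h hx _ hN n
    exact susp_cert h hx hN n
  | succ N ih =>
    intro S h hx hf hN n
    obtain ⟨m, rfl⟩ : ∃ m, d = m + 2 := ⟨d - 2, by omega⟩
    have hE := TT.eul_of_hs h
    have h0 := Cf_empty h
    have hU : Lk S (m + 2) (m + 2) (lv S ∅) := ⟨∅, h0, rfl, by simp⟩
    have hnb := nb_lv h hE ∅ x hx
    rw [insert_empty_eq] at hnb
    obtain ⟨a, ha, b, hb, hab, hq⟩ := full_edge (fam h hE) m (lv S ∅) x hU hx (by
      rw [hnb]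
      exact hf) (by omega)
    have hv : ∀ y : V, y ∈ lv S ∅ ↔ ({y} : Finset V) ∈ S := Cf_lv0
    have haS : ({a} : Finset V) ∈ S := (hv a).mp (Low.mem_na.mp ha).1
    have hbS : ({b} : Finset V) ∈ S := (hv b).mp (Low.mem_na.mp hb).1
    have hno : W1.NoSq S a b := by
      intro s t hs ht hst
      by_cases hsb : s = b
      · left
        rw [hsb, Finset.pair_eq_singleton]
        exact hbS
      by_cases hsa : s = a
      · left
        rw [hsa, Finset.pair_comm]
        exact hab.2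
      by_cases hta : t = a
      · right
        rw [hta, Finset.pair_eq_singleton]
        exact haS
      by_cases htb : t = b
      · right
        rw [htb]
        exact hab.2
      by_cases hst' : s = t
      · left
        rw [hst']
        exact ht
      have hsS : s ∈ lv S ∅ := (hv s).mpr (h.down _ hs _ (by simp))
      have htS : t ∈ lv S ∅ := (hv t).mpr (h.down _ ht _ (by simp))
      rcases hq s hsS t htS hsb hta ⟨fun h' => hsa h'.symm, hs⟩ ⟨fun h' => htb h'.symm, ht⟩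
        ⟨hst', hst⟩ with h1 | h1
      · exact Or.inl h1.2
      · exact Or.inr h1.2
    obtain ⟨c1, c2, c3, c4, c5, c6, c7⟩ := full_con h (by omega) hx hf ha hb hab hno
    have h1 := ih (W1.con S a b) c1 c2 c5 (by
      rw [c3, Finset.card_erase_of_mem hb, hN]
      omega)
    refine Cert.ctr (m + 2) n S a b hab.1 hab.2 hno (h1 n) ?_
    have hL := W1.hs_lk h _ hab.2
    rw [Finset.card_pair hab.1] at hL
    refine oct_cert hL (by omega) ?_ _
    rw [W1.lv_lkF h _ hab.2, c4]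

private theorem Cf_gv {S : Finset (Finset V)} {d : ℕ} (h : HS k S d) {g : Finset V → ℕ → ℤ}
    (hg : G3.GV S d g) {τ : Finset V} (hτ : τ ∈ S) :
    G3.GV (lkF S τ) (d - τ.card) (fun σ => g (σ ∪ τ)) := by
  intro σ hσ
  obtain ⟨h1, h2⟩ := (W1.HslkAux.mem_lk h τ σ).mp hσ
  obtain ⟨h3, h4⟩ := hg (σ ∪ τ) h2
  have h5 := h.card_le τ hτ
  rw [Finset.card_union_of_disjoint h1] at h3 h4
  refine ⟨fun i hi => h3 i (by omega), ?_⟩
  rw [TT.H_lkF h hτ h1 h2, h4]
  have h6 : d - (σ.card + τ.card) = d - τ.card - σ.card := by omega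
  rw [h6]

/-- The link of a face with a full vertex has all certificates. -/
theorem full_cert_lk {S : Finset (Finset V)} {d : ℕ} (h : HS k S d) {g : Finset V → ℕ → ℤ}
    (hg : G3.GV S d g) {σ : Finset V} (hσ : σ ∈ S) {v : V} (hv : v ∈ lv S σ) {e : ℕ}
    (he : σ.card + e = d) (he5 : 5 ≤ e) (h2 : g (insert v σ) 2 = g σ 2) (n : ℕ) :
    Cert k e n (lkF S σ) := by
  have hde : d - σ.card = e := by omega
  have hL := W1.hs_lk h σ hσ
  have hgL := Cf_gv h hg hσ
  rw [hde] at hL hgL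
  have hEL := TT.eul_of_hs hL
  have hvL : v ∈ lv (lkF S σ) ∅ := by
    rw [W1.lv_lkF h σ hσ]
    exact hv
  have h0L : (∅ : Finset V) ∈ lkF S σ := Cf_empty hL
  have hvS : ({v} : Finset V) ∈ lkF S σ := (Cf_lv0 v).mp hvL
  have e1 := G3.two_g2 hL hEL hgL ∅ h0L e (by simp) (by omega)
  have e2 := G3.two_g2 hL hEL hgL {v} hvS (e - 1) (by
    rw [Finset.card_singleton]
    omega) (by omega)
  have hf : gg (lkF S σ) (e - 1) {v} = gg (lkF S σ) e ∅ := by
    unfold gg
    rw [e1, e2, Finset.singleton_union, Finset.empty_union, h2]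
  have hne : (Low.na (Adj (lkF S σ)) (lv (lkF S σ) ∅) v).Nonempty := by
    obtain ⟨j, hj⟩ : ∃ j, e = j + 1 := ⟨e - 1, by omega⟩
    exact (fam hL hEL).na_nonempty j _ v ⟨∅, h0L, rfl, by simp [hj]⟩ hvL
  obtain ⟨N, hN⟩ : ∃ N, (Low.na (Adj (lkF S σ)) (lv (lkF S σ) ∅) v).card = N + 1 := by
    have := Finset.card_pos.mpr hne
    exact ⟨(Low.na (Adj (lkF S σ)) (lv (lkF S σ) ∅) v).card - 1, by omega⟩
  exact full_cert (by omega) v N (lkF S σ) hL hvL hf hN n

/-- If the second entry is at most one, there is a full vertex. -/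
theorem exists_full {S : Finset (Finset V)} {d : ℕ} (h : HS k S d) {g : Finset V → ℕ → ℤ}
    (hg : G3.GV S d g) {σ : Finset V} (hσ : σ ∈ S) {e : ℕ} (he : σ.card + e = d) (he5 : 5 ≤ e)
    (h1 : g σ 2 ≤ 1) : ∃ v ∈ lv S σ, g (insert v σ) 2 = g σ 2 := by
  have hE := TT.eul_of_hs h
  have hLm := G2.lemmaL (fam h hE)
  have h0 := G3.nonneg h hE hLm hg σ hσ e he (by omega)
  obtain ⟨e', rfl⟩ : ∃ e', e = e' + 1 := ⟨e - 1, by omega⟩
  have h2 := lv_two_mul h (e' + 1) σ hσ he
  have hnn : ∀ v ∈ lv S σ, 0 ≤ g (insert v σ) 2 := by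
    intro v hv
    obtain ⟨h3, h4⟩ := G3.lv_card_insert he hv
    exact G3.nonneg h hE hLm hg (insert v σ) h3 e' h4 (by omega)
  rcases eq_or_ne (g σ 2) 0 with hz | hz
  · obtain ⟨v, hv⟩ : (lv S σ).Nonempty := by
      rw [← Finset.card_pos]
      omega
    have h5 := G3.mono h hE hLm hg σ hσ (e' + 1) he he5 v hv
    have h6 := hnn v hv
    exact ⟨v, hv, by omega⟩
  · have hone : g σ 2 = 1 := by omega
    by_cases he6 : 6 ≤ e' + 1
    · obtain ⟨v, hv, hv1⟩ := G3.exists_one h hE hLm hg (e' + 1) he6 σ hσ he hone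
      exact ⟨v, hv, by rw [hv1, hone]⟩
    · have hs := G3.gamma_sum hE g hg σ hσ (e' + 1) he (by omega) 2
      have hg3 : g σ (2 + 1) = 0 := (hg σ hσ).1 (2 + 1) (by omega)
      have he4 : e' = 4 := by omega
      rw [hg3, hone, he4] at hs
      obtain ⟨v, hv, hvp⟩ : ∃ v ∈ lv S σ, 0 < g (insert v σ) 2 := by
        by_contra hcon
        push Not at hcon
        have h7 : ∑ v ∈ lv S σ, g (insert v σ) 2 ≤ 0 := Finset.sum_nonpos hcon
        rw [hs] at h7
        norm_num at h7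
      have h5 := G3.mono h hE hLm hg σ hσ (e' + 1) he he5 v hv
      exact ⟨v, hv, by omega⟩

end Pool.Agent.MP19e880.LD
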