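import Pool.Agent.Lib.MP_19e880_co_LD.Ldg
import Pool.Agent.Lib.MP_19e880_co_LD.Cf

/-!
Spheres whose second entry is at most two.
-/

set_option autoImplicit false
set_option linter.unusedSectionVars false

namespace Pool.Agent.MP19e880.LD

open Pool.Agent.MP19e880 Pool.Agent.MP19e880.W1 Pool.Agent.MP19e880.FV

variable {V : Type} [Fintype V] [LinearOrder V] {k : Type} [Field k]

private theorem Sg_gv {S : Finset (Finset V)} {d : ℕ} (h : HS k S d) {g : Finset V → ℕ → ℤ}
    (hg : G3.GV S d g) {τ : Finset V} (hτ : τ ∈ S) :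
    G3.GV (lkF S τ) (d - τ.card) (fun σ => g (σ ∪ τ)) := by
  intro σ hσ
  obtain ⟨h1, h2⟩ := (W1.HslkAux.mem_lk h τ σ).mp hσ
  obtain ⟨h3, h4⟩ := hg (σ ∪ τ) h2
  have h5 := h.card_le τ hτ
  rw [Finset.card_union_of_disjoint h1] at h3 h4
  refine ⟨fun i hi => h3 i (by omega), ?_⟩
  rw [TT.H_lkF h hτ h1 h2, h4]
  have h6 : d - (σ.card + τ.card) = d - τ.card - σ.card := by omega
  rw [h6]

private theorem Sg_mono {S : Finset (Finset V)} {d : ℕ} (h : HS k S d)
    {g : Finset V → ℕ → ℤ} (hg : G3.GV S d g) : ∀ (n : ℕ) (σ τ : Finset V), σ ⊆ τ → τ ∈ S →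
      (τ \ σ).card = n → τ.card + 4 ≤ d → g τ 2 ≤ g σ 2 := by
  have hE := TT.eul_of_hs h
  have hLm := G2.lemmaL (fam h hE)
  intro n
  induction n with
  | zero =>
    intro σ τ hσ _ hn _
    have h1 : τ ⊆ σ := by
      rw [← Finset.sdiff_eq_empty_iff_subset]
      exact Finset.card_eq_zero.mp hn
    rw [Finset.Subset.antisymm hσ h1]
  | succ n ih =>
    intro σ τ hσ hτ hn hd
    obtain ⟨v, hv⟩ : (τ \ σ).Nonempty := by
      rw [← Finset.card_pos]
      omega
    rw [Finset.mem_sdiff] at hv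
    have hτ' : τ.erase v ∈ S := hE.down τ hτ _ (Finset.erase_subset _ _)
    have hc : (τ.erase v).card + 1 = τ.card := Finset.card_erase_add_one hv.1
    have hvl : v ∈ lv S (τ.erase v) := by
      rw [mem_lv, Finset.insert_erase hv.1]
      exact ⟨Finset.notMem_erase _ _, hτ⟩
    have h1 := ih σ (τ.erase v) (Finset.subset_erase.mpr ⟨hσ, hv.2⟩) hτ' (by
      rw [Finset.erase_sdiff_comm, Finset.card_erase_of_mem (Finset.mem_sdiff.mpr hv), hn]
      omega) (by omega)
    have h2 := G3.mono h hE hLm hg (τ.erase v) hτ' (d - (τ.erase v).card) (by omega) (by omega)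
      v hvl
    rw [Finset.insert_erase hv.1] at h2
    linarith

/-- The link of a face with second entry at most one has all certificates. -/
private theorem Sg_cert {S : Finset (Finset V)} {d : ℕ} (h : HS k S d) {g : Finset V → ℕ → ℤ}
    (hg : G3.GV S d g) {σ : Finset V} (hσ : σ ∈ S) {e : ℕ} (he : σ.card + e = d) (he5 : 5 ≤ e)
    (h1 : g σ 2 ≤ 1) (n : ℕ) : Cert k e n (lkF S σ) := by
  obtain ⟨v, hv, hv2⟩ := exists_full h hg hσ he he5 h1
  exact full_cert_lk h hg hσ hv he he5 hv2 n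

/-- Rank 6, all vertex links with second entry at most one: the third entry is nonnegative. -/
theorem six {S : Finset (Finset V)} {d : ℕ} (h : HS k S d) {g : Finset V → ℕ → ℤ}
    (hg : G3.GV S d g) {σ : Finset V} (hσ : σ ∈ S) (he : σ.card + 6 = d)
    (h1 : ∀ v ∈ lv S σ, g (insert v σ) 2 ≤ 1) : 0 ≤ g σ 3 := by
  refine link_nonneg h hg σ hσ 3 (by omega) ?_
  refine Cert.loc 6 3 (lkF S σ) ∅ (Or.inl ?_) ?_
  · intro F _ hF
    rw [Finset.subset_empty] at hF
    rw [hF]
    simp
  · intro τ hτ hτ0 _ hτ3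
    have hpos : 0 < τ.card := Finset.card_pos.mpr (Finset.nonempty_iff_ne_empty.mpr hτ0)
    have hc : τ.card = 1 ∨ τ.card = 2 ∨ τ.card = 3 := by omega
    rcases hc with hc | hc | hc
    · obtain ⟨v, rfl⟩ := Finset.card_eq_one.mp hc
      obtain ⟨h2, h3, h4⟩ := lkF_lkF h hσ hτ
      rw [h2, Finset.card_singleton, Finset.singleton_union]
      rw [Finset.singleton_union, Finset.card_singleton] at h4
      rw [Finset.singleton_union] at h3
      have hv : v ∈ lv S σ := by
        rw [mem_lv]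
        refine ⟨?_, h3⟩
        have h5 := ((W1.HslkAux.mem_lk h σ {v}).mp hτ).1
        rwa [Finset.disjoint_singleton_left] at h5
      exact Sg_cert h hg h3 (by omega) (by norm_num) (h1 v hv) _
    · rw [hc]
      exact Cert.low _ _ _ (by norm_num) (by norm_num)
    · rw [hc]
      exact Cert.low _ _ _ (by norm_num) (by norm_num)

/-- Rank at least 7, all vertex links with second entry at most one: the entries after the second
one vanish. -/
theorem seven {S : Finset (Finset V)} {d : ℕ} (h : HS k S d) {g : Finset V → ℕ → ℤ}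
    (hg : G3.GV S d g) {σ : Finset V} (hσ : σ ∈ S) {e : ℕ} (he : σ.card + e = d) (he7 : 7 ≤ e)
    (h1 : ∀ v ∈ lv S σ, g (insert v σ) 2 ≤ 1) : ∀ i, 3 ≤ i → g σ i = 0 := by
  have hde : d - σ.card = e := by omega
  have hL := W1.hs_lk h σ hσ
  have hgL := Sg_gv h hg hσ
  rw [hde] at hL hgL
  -- the faces of small corank
  have key : ∀ ρ ∈ lkF S σ, ρ.card + 4 ≤ e → ρ ≠ ∅ → g (ρ ∪ σ) 2 ≤ 1 := by
    intro ρ hρ hρe hρ0
    obtain ⟨v, hv⟩ := Finset.nonempty_iff_ne_empty.mpr hρ0
    obtain ⟨h2, h3⟩ := (W1.HslkAux.mem_lk h σ ρ).mp hρ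
    have h4 : (ρ ∪ σ).card = ρ.card + σ.card := Finset.card_union_of_disjoint h2
    have hsub : insert v σ ⊆ ρ ∪ σ := by
      intro w hw
      rw [Finset.mem_insert] at hw
      rw [Finset.mem_union]
      rcases hw with rfl | hw
      · exact Or.inl hv
      · exact Or.inr hw
    have hvl : v ∈ lv S σ := by
      rw [mem_lv]
      exact ⟨Finset.disjoint_left.mp h2 hv, h.down _ h3 _ hsub⟩
    exact (Sg_mono h hg _ (insert v σ) (ρ ∪ σ) hsub h3 rfl (by omega)).trans (h1 v hvl)
  have hmain := ld_gamma hL hgL (p := 2) (by norm_num) (by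
    intro ρ hρ hρ6
    obtain ⟨h2, h3, h4⟩ := lkF_lkF h hσ hρ
    have hcl := hL.card_le ρ hρ
    have hrk : (ρ ∪ σ).card + (e - ρ.card) = d := by omega
    have hS' := W1.hs_lk h (ρ ∪ σ) h3
    rw [show d - (ρ ∪ σ).card = e - ρ.card by omega] at hS'
    rw [h2]
    refine red_gv ?_ hS'
    by_cases hr : e - ρ.card ≤ 4
    · exact Cert.low _ _ _ (by omega) (by omega)
    · refine Sg_cert h hg h3 hrk (by omega) (key ρ hρ (by omega) ?_) _
      rintro rfl
      rw [Finset.card_empty] at hρ6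
      omega) (by
    intro ρ hρ hρ6
    obtain ⟨h2, h3, h4⟩ := lkF_lkF h hσ hρ
    refine one_gamma h hg 6 (ρ ∪ σ) h3 (by omega) (by norm_num) (key ρ hρ (by omega) ?_) 3
      (by norm_num)
    rintro rfl
    rw [Finset.card_empty] at hρ6
    omega) e ∅ (hL.flag ∅ (fun a ha => absurd ha (Finset.notMem_empty a))) (by simp) (by omega)
  intro i hi
  have h2 := hmain i (by omega)
  simpa using h2

/-- The second entry is at most two. -/
theorem two_gamma {S : Finset (Finset V)} {d : ℕ} (h : HS k S d) {g : Finset V → ℕ → ℤ}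
    (hg : G3.GV S d g) : ∀ (e : ℕ) (σ : Finset V), σ ∈ S → σ.card + e = d → 4 ≤ e →
      g σ 2 ≤ 2 → 0 ≤ g σ 3 ∧ ∀ i, 4 ≤ i → g σ i = 0 := by
  have hE := TT.eul_of_hs h
  have hLm := G2.lemmaL (fam h hE)
  intro e
  induction e with
  | zero =>
    intro σ _ _ h4
    omega
  | succ e ih =>
    intro σ hσ he he4 hle
    by_cases he6 : e + 1 < 6
    · refine ⟨le_of_eq ((hg σ hσ).1 3 (by omega)).symm, fun i hi => (hg σ hσ).1 i (by omega)⟩
    by_cases hex : ∃ v ∈ lv S σ, g (insert v σ) 2 = g σ 2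
    · obtain ⟨v, hv, hv2⟩ := hex
      obtain ⟨h3, h4⟩ := G3.lv_card_insert he hv
      have hvσ := ((mem_lv σ v).mp hv).1
      have h5 := face_gamma h hg 1 σ (insert v σ) (Finset.subset_insert _ _) h3 (by
        rw [Finset.insert_sdiff_of_notMem _ hvσ, Finset.sdiff_self, insert_empty_eq,
          Finset.card_singleton]) (by omega) hv2
      obtain ⟨h6, h7⟩ := ih (insert v σ) h3 h4 (by omega) (by rw [hv2]; exact hle)
      rw [h5 3 (by norm_num)] at h6
      exact ⟨h6, fun i hi => by rw [← h5 i (by omega)]; exact h7 i hi⟩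
    · have hall : ∀ v ∈ lv S σ, g (insert v σ) 2 ≤ 1 := by
        intro v hv
        have h2 := G3.mono h hE hLm hg σ hσ (e + 1) he (by omega) v hv
        have h3 : g (insert v σ) 2 ≠ g σ 2 := fun h4 => hex ⟨v, hv, h4⟩
        have h4 := lt_of_le_of_ne h2 h3
        omega
      by_cases he7 : 7 ≤ e + 1
      · have h2 := seven h hg hσ he he7 hall
        exact ⟨le_of_eq (h2 3 (by norm_num)).symm, fun i hi => h2 i (by omega)⟩
      · have h6 : e + 1 = 6 := by omega
        refine ⟨six h hg hσ (by omega) hall, fun i hi => (hg σ hσ).1 i (by omega)⟩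

end Pool.Agent.MP19e880.LD
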