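import Pool.Agent.Lib.MP_19e880_co_W1.Final

/-!
Exactness in all degrees for flag homology spheres.
-/

set_option autoImplicit false
set_option linter.unusedSectionVars false

namespace Pool.Agent.MP19e880.LD

open Pool.Agent.MP19e880 Pool.Agent.MP19e880.W1

variable {V : Type} [Fintype V] [LinearOrder V] {k : Type} [Field k]

theorem gv_lk {S : Finset (Finset V)} {d : ℕ} (h : HS k S d) {σ : Finset V} (hσ : σ ∈ S) (n : ℕ) :
    GV k (ad (lkF S σ)) (lv (lkF S σ) ∅) n ↔ GV k (ad S) (lv S σ) n := by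
  constructor
  · exact gv_link h σ hσ
  · intro hG
    rw [lv_lkF h σ hσ]
    exact gv_congr k hG fun a ha b hb _ => (ad_lkF h σ hσ a b ha hb).symm

theorem cl_eq {S : Finset (Finset V)} {d : ℕ} (h : HS k S d) :
    Cl (ad S) (lv S ∅) = fun F => F ∈ S := by
  have h0 : (∅ : Finset V) ∈ S := h.flag ∅ (by simp)
  funext F
  rw [cl_lv h ∅ h0 F]
  unfold LX
  simp

/-- Exactness above, by duality. -/
theorem ex_high {S : Finset (Finset V)} {d n : ℕ} (h : HS k S d) (hG : GV k (ad S) (lv S ∅) n)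
    {M : Type} [AddCommGroup M] [Module (KK V k) M] (ψ φ : V → M →ₗ[KK V k] M)
    (hR : Rel (gen k (ad S)) (lv S ∅) ψ φ) (j : ℕ) (hj : d < j + n) :
    ExAt (Cl (ad S) (lv S ∅)) ψ j := by
  have hP := cl_eq h
  rcases Nat.lt_or_ge d n with hn | hn
  · rcases Nat.lt_or_ge j n with hj' | hj'
    · exact hG M ψ φ hR j hj'
    · rw [hP]
      intro x hx _
      refine ⟨0, fun F hF => absurd rfl hF, ?_⟩
      have hx0 : x = 0 := by
        funext F
        by_contra hne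
        obtain ⟨h1, h2, _⟩ := hx F hne
        have h3 := h.card_le F h1
        omega
      rw [hx0]
      funext G
      simp [dl]
  · rw [hP]
    have hK : HS (KK V k) S d := hs_ext k h
    refine dual hK (gen k (ad S)) (fun a b _ hS => gen_zero k hS) ψ φ hR n hn ?_ j hj
    intro i hi
    rw [← hP]
    exact ho_of_vv (ad_symm S) (fun a _ b _ _ hab => gen_zero k hab) hG ψ φ hR i hi

theorem all_of_gv {S : Finset (Finset V)} {d n : ℕ} (h : HS k S d)
    (hG : GV k (ad S) (lv S ∅) n) (hn : d < 2 * n) : ∀ n', GV k (ad S) (lv S ∅) n' := by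
  intro n' M _ _ ψ φ hR j _
  rcases Nat.lt_or_ge j n with hj | hj
  · exact hG M ψ φ hR j hj
  · exact ex_high h hG ψ φ hR j (by omega)

theorem all_of_mid {S : Finset (Finset V)} {m : ℕ} (h : HS k S (2 * m))
    (hG : GV k (ad S) (lv S ∅) m)
    (hM : ∀ (M : Type) [AddCommGroup M] [Module (KK V k) M] (ψ φ : V → M →ₗ[KK V k] M),
      Rel (gen k (ad S)) (lv S ∅) ψ φ → ExAt (Cl (ad S) (lv S ∅)) ψ m) :
    ∀ n', GV k (ad S) (lv S ∅) n' := by
  intro n' M _ _ ψ φ hR j _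
  rcases lt_trichotomy j m with hj | hj | hj
  · exact hG M ψ φ hR j hj
  · rw [hj]
    exact hM M ψ φ hR
  · exact ex_high h hG ψ φ hR j (by omega)

/-- If the complex is exact in all degrees, its Euler characteristic vanishes. -/
theorem sum_zero {S : Finset (Finset V)} {m : ℕ} (h : HS k S (2 * m))
    (hG : ∀ n, GV k (ad S) (lv S ∅) n) : ∑ F ∈ S, (-2 : ℤ) ^ (2 * m - F.card) = 0 := by
  have hP := cl_eq h
  have hR' := fock_rel (gr k (ad S) (lv S ∅)) (gr_symm (ad_symm S) _) (lv S ∅)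
  have hagree : ∀ a ∈ lv S ∅, ∀ b ∈ lv S ∅, gr k (ad S) (lv S ∅) a b = gen k (ad S) a b := by
    intro a ha b hb
    unfold gr
    rw [if_pos ⟨ha, hb⟩]
  have hR : Rel (gen k (ad S)) (lv S ∅)
      (fun v => (Pm (KK V k) (gr k (ad S) (lv S ∅)) v).mulVecLin)
      (fun v => (Fm (KK V k) v).mulVecLin) :=
    ⟨hR'.sq, fun u hu v hv huv x => by rw [← hagree u hu v hv]; exact hR'.ac u hu v hv huv x,
      hR'.one, hR'.zer, hR'.psq, hR'.pac⟩
  have hex : ∀ j, ExAt (fun F => F ∈ S)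
      (fun v => (Pm (KK V k) (gr k (ad S) (lv S ∅)) v).mulVecLin) j := by
    intro j
    rw [← hP]
    exact hG (j + 1) _ _ _ hR j (Nat.lt_succ_self j)
  have hSX : ∀ F ∈ S, F ⊆ lv S ∅ := by
    intro F hF a ha
    rw [mem_lv0]
    exact h.down F hF _ (by simpa using ha)
  have hE1 := (euler hR' S h.down hSX (fun a b _ hab => by
    unfold gr
    rw [gen_zero k hab]
    simp) m h.card_le (fun j _ => hex j)).1
  have hE2 := (euler hR' S h.down hSX (fun a b _ hab => by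
    unfold gr
    rw [gen_zero k hab]
    simp) (m + 1) (fun F hF => by
      have := h.card_le F hF
      omega) (fun j _ => hex j)).1
  have hs : ∑ F ∈ S, (-2 : ℤ) ^ (2 * (m + 1) - F.card) =
      4 * ∑ F ∈ S, (-2 : ℤ) ^ (2 * m - F.card) := by
    rw [Finset.mul_sum]
    refine Finset.sum_congr rfl fun F hF => ?_
    have := h.card_le F hF
    rw [show 2 * (m + 1) - F.card = (2 * m - F.card) + 2 by omega, pow_add]
    ring
  rw [hs, pow_succ] at hE2
  rcases neg_one_pow_eq_or ℤ m with h1 | h1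
  · rw [h1] at hE1 hE2
    linarith
  · rw [h1] at hE1 hE2
    linarith

theorem lkF_lkF {S : Finset (Finset V)} {d : ℕ} (h : HS k S d) {σ τ : Finset V} (hσ : σ ∈ S)
    (hτ : τ ∈ lkF S σ) : lkF (lkF S σ) τ = lkF S (τ ∪ σ) ∧ τ ∪ σ ∈ S ∧
      (τ ∪ σ).card = τ.card + σ.card := by
  have hτ' := (mem_lkF S h.down σ τ).mp hτ
  unfold LX at hτ'
  refine ⟨?_, hτ'.2.1, Finset.card_union_of_disjoint hτ'.1⟩
  ext G
  rw [mem_lkF (lkF S σ) (lkF_down S h.down σ) τ G, mem_lkF S h.down (τ ∪ σ) G]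
  unfold LX
  rw [mem_lkF S h.down σ (G ∪ τ)]
  unfold LX
  rw [Finset.disjoint_union_left, Finset.disjoint_union_right, Finset.union_assoc]
  constructor
  · rintro ⟨h2, ⟨⟨h3, _⟩, h4, _⟩, h5⟩
    exact ⟨⟨h2, h3⟩, h4, h5⟩
  · rintro ⟨⟨h2, h3⟩, h4, h5⟩
    exact ⟨h2, ⟨⟨h3, hτ'.1⟩, h4, Finset.disjoint_empty_right _⟩, h5⟩

end Pool.Agent.MP19e880.LD
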