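import Pool.Agent.Lib.MP_19e880_co_FV.Poly

/-!
Octahedral reductions.
-/

set_option autoImplicit false
set_option linter.unusedSectionVars false

namespace Pool.Agent.MP19e880.LD

open Pool.Agent.MP19e880 Pool.Agent.MP19e880.W1 Pool.Agent.MP19e880.FV

variable {V : Type} [Fintype V] [LinearOrder V] {k : Type} [Field k]

/-- `T` is obtained from `S` by contractions of edges in no induced 4-cycle, with octahedral links
and with both ends outside `K`. -/
inductive OR (d : ℕ) (K : Finset V) : Finset (Finset V) → Finset (Finset V) → Prop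
  | refl (S : Finset (Finset V)) : OR d K S S
  | step (S T : Finset (Finset V)) (a b : V) : a ≠ b → a ∉ K → b ∉ K →
      ({a, b} : Finset V) ∈ S → NoSq S a b → (lv S {a, b}).card = 2 * (d - 2) →
      OR d K (con S a b) T → OR d K S T

/-- A cross-polytope: `c` is the antipodal map. -/
def Cross (d : ℕ) (T : Finset (Finset V)) : Prop :=
  ∃ (U : Finset V) (c : V → V), U.card = 2 * d ∧ (∀ v ∈ U, c v ∈ U ∧ c v ≠ v ∧ c (c v) = v) ∧
    ∀ F : Finset V, F ∈ T ↔ F ⊆ U ∧ ∀ v ∈ F, c v ∉ F

private theorem or_empty {S : Finset (Finset V)} {d : ℕ} (h : HS k S d) : (∅ : Finset V) ∈ S :=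
  h.flag ∅ (fun a ha => absurd ha (Finset.notMem_empty a))

private theorem or_lv {S : Finset (Finset V)} {y : V} : y ∈ lv S ∅ ↔ ({y} : Finset V) ∈ S := by
  rw [mem_lv, insert_empty_eq]
  simp

private theorem or_lv1 {S : Finset (Finset V)} {x y : V} :
    y ∈ lv S {x} ↔ y ≠ x ∧ ({y, x} : Finset V) ∈ S := by
  rw [mem_lv, Finset.mem_singleton]

/-- Every vertex of a small sphere has exactly one non-neighbour. -/
private theorem or_na {T : Finset (Finset V)} {d : ℕ} (h : HS k T d)
    (hc : (lv T ∅).card ≤ 2 * d) {x : V} (hx : x ∈ lv T ∅) :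
    (Low.na (Adj T) (lv T ∅) x).card = 1 ∧ (Low.nb (Adj T) (lv T ∅) x).card = 2 * (d - 1) ∧
      (lv T ∅).card = 2 * d ∧ 1 ≤ d := by
  have hE := TT.eul_of_hs h
  have h0 := or_empty h
  have hxT := or_lv.mp hx
  have h1 : 1 ≤ d := by
    have := h.card_le _ hxT
    rwa [Finset.card_singleton] at this
  have h2 := lv_two_mul h (d - 1) {x} hxT (by rw [Finset.card_singleton]; omega)
  have h3 := lv_bound h ∅ h0 x (Finset.notMem_empty x) (by rw [insert_empty_eq]; exact hxT)
  have h4 := (fam h hE).card_eq (lv T ∅) x hx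
  have h5 := nb_lv h hE ∅ x hx
  rw [insert_empty_eq] at h3 h5
  rw [h5] at h4 ⊢
  omega

theorem cross_iff {T : Finset (Finset V)} {d : ℕ} (h : HS k T d) :
    Cross d T ↔ (lv T ∅).card ≤ 2 * d := by
  classical
  constructor
  · rintro ⟨U, c, hU, hc, hF⟩
    have : lv T ∅ = U := by
      ext x
      rw [or_lv, hF, Finset.singleton_subset_iff]
      constructor
      · exact fun h' => h'.1
      · intro hx
        refine ⟨hx, ?_⟩
        intro v hv
        rw [Finset.mem_singleton] at hv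
        rw [hv, Finset.mem_singleton]
        exact (hc x hx).2.1
    rw [this, hU]
  · intro hle
    have hE := TT.eul_of_hs h
    have hch : ∀ x : V, ∃ y : V, x ∈ lv T ∅ → Low.na (Adj T) (lv T ∅) x = {y} := by
      intro x
      by_cases hx : x ∈ lv T ∅
      · obtain ⟨y, hy⟩ := Finset.card_eq_one.mp (or_na h hle hx).1
        exact ⟨y, fun _ => hy⟩
      · exact ⟨x, fun h' => absurd h' hx⟩
    choose c hc using hch
    have hcm : ∀ x ∈ lv T ∅, ∀ y : V, y ∈ lv T ∅ → y ≠ x → ¬ Adj T x y → y = c x := by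
      intro x hx y hy hyx hno
      have h1 : y ∈ Low.na (Adj T) (lv T ∅) x := Low.mem_na.mpr ⟨hy, hyx, hno⟩
      rw [hc x hx, Finset.mem_singleton] at h1
      exact h1
    have hcx : ∀ x ∈ lv T ∅, c x ∈ lv T ∅ ∧ c x ≠ x ∧ ¬ Adj T x (c x) := by
      intro x hx
      have h1 : c x ∈ Low.na (Adj T) (lv T ∅) x := by
        rw [hc x hx, Finset.mem_singleton]
      exact Low.mem_na.mp h1
    refine ⟨lv T ∅, c, ?_, ?_, ?_⟩
    · by_cases hne : (lv T ∅).Nonempty
      · obtain ⟨x, hx⟩ := hne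
        exact (or_na h hle hx).2.2.1
      · have h2 := lv_two_mul h d ∅ (or_empty h) (by simp)
        omega
    · intro x hx
      obtain ⟨h1, h2, h3⟩ := hcx x hx
      refine ⟨h1, h2, ?_⟩
      symm
      exact hcm (c x) h1 x hx h2.symm (fun h' => h3 ((fam h hE).symm _ _ h'))
    · intro F
      constructor
      · intro hF
        refine ⟨fun v hv => or_lv.mpr (h.down F hF _ (Finset.singleton_subset_iff.mpr hv)), ?_⟩
        intro v hv hcv
        have hvU := or_lv.mpr (h.down F hF _ (Finset.singleton_subset_iff.mpr hv))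
        obtain ⟨_, h2, h3⟩ := hcx v hvU
        apply h3
        refine ⟨h2.symm, h.down F hF _ ?_⟩
        intro y hy
        rw [Finset.mem_insert, Finset.mem_singleton] at hy
        rcases hy with rfl | rfl
        · exact hv
        · exact hcv
      · rintro ⟨h1, h2⟩
        apply h.flag
        intro a ha b hb
        by_cases hab : a = b
        · rw [hab, Finset.pair_eq_singleton]
          exact or_lv.mp (h1 hb)
        · by_contra hno
          have h3 := hcm a (h1 ha) b (h1 hb) (fun h' => hab h'.symm) (fun h' => hno h'.2)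
          exact h2 a ha (h3 ▸ hb)

theorem cross_gg {T : Finset (Finset V)} {d : ℕ} (h : HS k T d) (hc : (lv T ∅).card ≤ 2 * d) :
    gg T d ∅ = 0 := by
  by_cases hne : (lv T ∅).Nonempty
  · obtain ⟨x, hx⟩ := hne
    obtain ⟨-, -, h3, h4⟩ := or_na h hc hx
    have h5 : Low.dg (Adj T) (lv T ∅) = 2 * d * (2 * (d - 1)) := by
      unfold Low.dg
      rw [Finset.sum_congr rfl fun v hv => (or_na h hc hv).2.1, Finset.sum_const, h3, smul_eq_mul]
    unfold gg Low.Fam.g2
    rw [h5, h3]
    obtain ⟨e, rfl⟩ : ∃ e, d = e + 1 := ⟨d - 1, by omega⟩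
    rw [Nat.add_sub_cancel]
    push_cast
    ring
  · have h1 : lv T ∅ = ∅ := Finset.not_nonempty_iff_eq_empty.mp hne
    have h2 := lv_two_mul h d ∅ (or_empty h) (by simp)
    rw [h1, Finset.card_empty] at h2
    have h3 : d = 0 := by omega
    unfold gg Low.Fam.g2 Low.dg
    rw [h1, h3]
    simp

/-- Reductions keep the second entry, and the link of a vertex of which the closed star is
avoided. -/
theorem OR.keep {d : ℕ} (hd : 2 ≤ d) {K : Finset V} {S T : Finset (Finset V)} (ho : OR d K S T) :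
    HS k S d → HS k T d ∧ gg T d ∅ = gg S d ∅ ∧
      ∀ x ∈ lv S ∅, insert x (lv S {x}) ⊆ K → x ∈ lv T ∅ ∧ lkF T {x} = lkF S {x} := by
  induction ho with
  | refl S =>
    intro h
    exact ⟨h, rfl, fun x hx _ => ⟨hx, rfl⟩⟩
  | step S T a b hab haK hbK habS hno hcard _ ih =>
    intro h
    have hadj : Adj S a b := ⟨hab, habS⟩
    have h' := W1.hs_con h a b hab habS hno
    obtain ⟨h1, h2, h3⟩ := ih h'
    refine ⟨h1, ?_, ?_⟩
    · rw [h2, con_gg h hd hadj hno, hcard]
      push_cast [Nat.cast_sub hd]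
      ring
    · intro x hx hK
      have hxK : x ∈ K := hK (Finset.mem_insert_self _ _)
      have hxa : x ≠ a := fun e => haK (e ▸ hxK)
      have hxb : x ≠ b := fun e => hbK (e ▸ hxK)
      have hna : ¬ Adj S x a := by
        rintro ⟨_, h4⟩
        apply haK
        apply hK
        rw [Finset.mem_insert, or_lv1, Finset.pair_comm]
        exact Or.inr ⟨hxa.symm, h4⟩
      have hnb : ¬ Adj S x b := by
        rintro ⟨_, h4⟩
        apply hbK
        apply hK
        rw [Finset.mem_insert, or_lv1, Finset.pair_comm]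
        exact Or.inr ⟨hxb.symm, h4⟩
      obtain ⟨c1, c2, -, -⟩ := con_link h hadj hno hx hxa hxb hna hnb
      obtain ⟨h5, h6⟩ := h3 x c1 (by rw [c2]; exact hK)
      refine ⟨h5, h6.trans ?_⟩
      ext G
      rw [W1.HslkAux.mem_lk h', W1.HslkAux.mem_lk h, W1.CtrcAux.mem_con h.down hab]
      refine and_congr_right fun _ => ?_
      have key : ∀ G' : Finset V, G' ∈ S → x ∈ G' → b ∉ G' := by
        intro G' hG' hxG hbG
        apply hnb
        refine ⟨hxb, h.down G' hG' _ ?_⟩
        intro y hy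
        rw [Finset.mem_insert, Finset.mem_singleton] at hy
        rcases hy with rfl | rfl
        · exact hxG
        · exact hbG
      have hxG : x ∈ G ∪ {x} := Finset.mem_union_right _ (Finset.mem_singleton_self x)
      constructor
      · rintro ⟨_, h7 | ⟨_, h7⟩⟩
        · exact h7
        · exact absurd (Finset.mem_insert_self _ _) (key _ h7
            (Finset.mem_insert_of_mem (Finset.mem_erase.mpr ⟨hxa, hxG⟩)))
      · intro h7
        exact ⟨key _ h7 hxG, Or.inl h7⟩

/-- A good edge outside the closed star of a full vertex. -/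
private theorem or_edge {S : Finset (Finset V)} {d : ℕ} (h : HS k S d) (hd : 2 ≤ d) {x : V}
    (hx : x ∈ lv S ∅) (hf : gg S (d - 1) {x} = gg S d ∅)
    (h2 : 2 ≤ (Low.na (Adj S) (lv S ∅) x).card) :
    ∃ a ∈ Low.na (Adj S) (lv S ∅) x, ∃ b ∈ Low.na (Adj S) (lv S ∅) x, Adj S a b ∧
      W1.NoSq S a b := by
  obtain ⟨m, rfl⟩ : ∃ m, d = m + 2 := ⟨d - 2, by omega⟩
  have hE := TT.eul_of_hs h
  have h0 := or_empty h
  have hU : Lk S (m + 2) (m + 2) (lv S ∅) := ⟨∅, h0, rfl, by simp⟩
  have hnb := nb_lv h hE ∅ x hx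
  rw [insert_empty_eq] at hnb
  obtain ⟨a, ha, b, hb, hab, hq⟩ := full_edge (fam h hE) m (lv S ∅) x hU hx (by
    rw [hnb]
    exact hf) h2
  have haS : ({a} : Finset V) ∈ S := or_lv.mp (Low.mem_na.mp ha).1
  have hbS : ({b} : Finset V) ∈ S := or_lv.mp (Low.mem_na.mp hb).1
  refine ⟨a, ha, b, hb, hab, ?_⟩
  intro s t hs ht hst
  by_cases hsb : s = b
  · left
    rw [hsb, Finset.pair_eq_singleton]
    exact hbS
  by_cases hsa : s = a
  · left
    rw [hsa, Finset.pair_comm]
    exact hab.2
  by_cases hta : t = a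
  · right
    rw [hta, Finset.pair_eq_singleton]
    exact haS
  by_cases htb : t = b
  · right
    rw [htb]
    exact hab.2
  by_cases hst' : s = t
  · left
    rw [hst']
    exact ht
  have hsS : s ∈ lv S ∅ := or_lv.mpr (h.down _ hs _ (by simp))
  have htS : t ∈ lv S ∅ := or_lv.mpr (h.down _ ht _ (by simp))
  rcases hq s hsS t htS hsb hta ⟨fun h' => hsa h'.symm, hs⟩ ⟨fun h' => htb h'.symm, ht⟩
    ⟨hst', hst⟩ with h1 | h1
  · exact Or.inl h1.2
  · exact Or.inr h1.2

private theorem or_full {d : ℕ} (hd : 2 ≤ d) (x : V) (L : Finset V) : ∀ (n : ℕ)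
    (S : Finset (Finset V)), HS k S d → x ∈ lv S ∅ → lv S {x} = L →
    gg S (d - 1) {x} = gg S d ∅ → (Low.na (Adj S) (lv S ∅) x).card = n + 1 →
    ∃ (T : Finset (Finset V)) (y : V), OR d (insert x L) S T ∧ {y} ∈ T ∧ y ≠ x ∧
      ({x, y} : Finset V) ∉ T ∧
      (∀ w, {w} ∈ T → w ≠ x → w ≠ y → ({x, w} : Finset V) ∈ T ∧ ({y, w} : Finset V) ∈ T) := by
  intro n
  induction n with
  | zero =>
    intro S h hx _ _ hn
    obtain ⟨y, hy⟩ := Finset.card_eq_one.mp hn
    have hE := TT.eul_of_hs h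
    have hyn : y ∈ Low.na (Adj S) (lv S ∅) x := by rw [hy, Finset.mem_singleton]
    obtain ⟨h1, h2, h3⟩ := Low.mem_na.mp hyn
    have huniq : ∀ z : V, z ∈ lv S ∅ → z ≠ x → ¬ Adj S x z → z = y := by
      intro z hz hzx hno
      have h4 : z ∈ Low.na (Adj S) (lv S ∅) x := Low.mem_na.mpr ⟨hz, hzx, hno⟩
      rw [hy, Finset.mem_singleton] at h4
      exact h4
    refine ⟨S, y, OR.refl S, or_lv.mp h1, h2, fun h' => h3 ⟨h2.symm, h'⟩, ?_⟩
    intro w hw hwx hwy
    have hwS : w ∈ lv S ∅ := or_lv.mpr hw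
    have hxw : Adj S x w := by
      by_contra hno
      exact hwy (huniq w hwS hwx hno)
    refine ⟨hxw.2, ?_⟩
    obtain ⟨m, rfl⟩ : ∃ m, d = m + 2 := ⟨d - 2, by omega⟩
    have hxl : x ∈ lv S {w} := or_lv1.mpr ⟨hwx.symm, hxw.2⟩
    obtain ⟨z, hz⟩ := (fam h hE).na_nonempty m (lv S {w}) x ⟨{w}, hw, rfl, by
      rw [Finset.card_singleton]
      omega⟩ hxl
    obtain ⟨z1, z2, z3⟩ := Low.mem_na.mp hz
    rw [or_lv1] at z1
    have hzS : z ∈ lv S ∅ := or_lv.mpr (h.down _ z1.2 _ (by simp))
    rw [← huniq z hzS z2 z3]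
    exact z1.2
  | succ n ih =>
    intro S h hx hL hf hn
    obtain ⟨a, ha, b, hb, hab, hno⟩ := or_edge h hd hx hf (by omega)
    obtain ⟨c1, c2, c3, c4, c5, -, -⟩ := full_con h hd hx hf ha hb hab hno
    obtain ⟨a1, a2, a3⟩ := Low.mem_na.mp ha
    obtain ⟨b1, b2, b3⟩ := Low.mem_na.mp hb
    obtain ⟨-, hlx, -, -⟩ := con_link h hab hno hx a2.symm b2.symm a3 b3
    obtain ⟨T, y, t1, t2⟩ := ih (W1.con S a b) c1 c2 (hlx.trans hL) c5 (by
      rw [c3, Finset.card_erase_of_mem hb, hn]
      omega)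
    have hout : ∀ v : V, v ≠ x → ¬ Adj S x v → v ∉ insert x L := by
      intro v hv hnv hvL
      rw [Finset.mem_insert] at hvL
      rcases hvL with hvL | hvL
      · exact hv hvL
      · rw [← hL, or_lv1] at hvL
        exact hnv ⟨hv.symm, by rw [Finset.pair_comm]; exact hvL.2⟩
    exact ⟨T, y, OR.step S T a b hab.1 (hout a a2 a3) (hout b b2 b3) hab.2 hno c4 t1, t2⟩

/-- A full vertex: reduction to a suspension, away from the closed star. -/
theorem full_or {S : Finset (Finset V)} {d : ℕ} (h : HS k S d) (hd : 2 ≤ d) {x : V}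
    (hx : x ∈ lv S ∅) (hf : gg S (d - 1) {x} = gg S d ∅) :
    ∃ (T : Finset (Finset V)) (y : V), OR d (insert x (lv S {x})) S T ∧ {y} ∈ T ∧ y ≠ x ∧
      ({x, y} : Finset V) ∉ T ∧
      (∀ w, {w} ∈ T → w ≠ x → w ≠ y → ({x, w} : Finset V) ∈ T ∧ ({y, w} : Finset V) ∈ T) := by
  have hE := TT.eul_of_hs h
  have hne : (Low.na (Adj S) (lv S ∅) x).Nonempty := by
    obtain ⟨m, rfl⟩ : ∃ m, d = m + 2 := ⟨d - 2, by omega⟩
    exact (fam h hE).na_nonempty (m + 1) _ x ⟨∅, or_empty h, rfl, by simp⟩ hx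
  have hpos := Finset.card_pos.mpr hne
  exact or_full hd x (lv S {x}) ((Low.na (Adj S) (lv S ∅) x).card - 1) S h hx rfl hf (by omega)

private theorem or_small {S : Finset (Finset V)} {d : ℕ} (h : HS k S d) : ∀ (e : ℕ)
    (σ : Finset V), σ ∈ S → σ.card + e = d →
    (∀ x ∈ lv S σ, (Low.na (Adj S) (lv S σ) x).card ≤ 1) → (lv S σ).card ≤ 2 * e := by
  have hE := TT.eul_of_hs h
  intro e
  induction e with
  | zero =>
    intro σ _ hd _
    rw [Nat.mul_zero, Nat.le_zero, Finset.card_eq_zero, Finset.eq_empty_iff_forall_notMem]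
    intro v hv
    rw [mem_lv] at hv
    have h1 := h.card_le _ hv.2
    rw [Finset.card_insert_of_notMem hv.1] at h1
    omega
  | succ e ih =>
    intro σ hσ hd hall
    by_cases hne : (lv S σ).Nonempty
    · obtain ⟨v, hv⟩ := hne
      have hv' := (mem_lv σ v).mp hv
      have h1 := (fam h hE).card_eq (lv S σ) v hv
      have h2 := hall v hv
      have h3 := nb_lv h hE σ v hv
      have h4 := ih (insert v σ) hv'.2 (by rw [Finset.card_insert_of_notMem hv'.1]; omega) (by
        intro x hx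
        have hsub : lv S (insert v σ) ⊆ lv S σ := by
          rw [← h3]
          exact fun y hy => (Low.mem_nb.mp hy).1
        refine le_trans (Finset.card_le_card ?_) (hall x (hsub hx))
        intro y hy
        rw [Low.mem_na] at hy ⊢
        exact ⟨hsub hy.1, hy.2⟩)
      rw [h3] at h1
      omega
    · rw [Finset.not_nonempty_iff_eq_empty.mp hne, Finset.card_empty]
      exact Nat.zero_le _

/-- The second entry vanishes if and only if the sphere reduces to a cross-polytope. -/
theorem zero_or {S : Finset (Finset V)} {d : ℕ} (h : HS k S d) (hd : 4 ≤ d) :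
    gg S d ∅ = 0 ↔ ∃ T, OR d ∅ S T ∧ Cross d T := by
  constructor
  · intro hg
    obtain ⟨N, hN⟩ : ∃ N, (lv S ∅).card = N := ⟨_, rfl⟩
    induction N using Nat.strong_induction_on generalizing S with
    | _ N ih =>
      by_cases hle : (lv S ∅).card ≤ 2 * d
      · exact ⟨S, OR.refl S, (cross_iff h).mpr hle⟩
      · obtain ⟨x, hx, hx2⟩ : ∃ x ∈ lv S ∅, 2 ≤ (Low.na (Adj S) (lv S ∅) x).card := by
          by_contra hcon
          push Not at hcon
          apply hle
          refine or_small h d ∅ (or_empty h) (by simp) ?_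
          intro x hx
          have := hcon x hx
          omega
        have hE := TT.eul_of_hs h
        obtain ⟨m, hm⟩ : ∃ m, d = m + 2 := ⟨d - 2, by omega⟩
        have hxS := or_lv.mp hx
        have hf0 : gg S (d - 1) {x} = 0 := by
          refine le_antisymm ?_ ?_
          · rw [← hg]
            subst hm
            have hU : Lk S (m + 2) (m + 2) (lv S ∅) := ⟨∅, or_empty h, rfl, by simp⟩
            have key := G2.g2_link (fam h hE) (G2.lemmaL (fam h hE)) m _ x hU hx
            rw [nb_lv h hE ∅ x hx, insert_empty_eq] at key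
            unfold gg
            exact key
          · unfold gg
            refine G2.g2_nonneg (fam h hE) (G2.lemmaL (fam h hE)) (d - 1) (lv S {x})
              ⟨{x}, hxS, rfl, ?_⟩
            rw [Finset.card_singleton]
            omega
        have hf : gg S (d - 1) {x} = gg S d ∅ := by rw [hf0, hg]
        obtain ⟨a, ha, b, hb, hab, hno⟩ := or_edge h (by omega) hx hf hx2
        obtain ⟨c1, c2, c3, c4, c5, -, -⟩ := full_con h (by omega) hx hf ha hb hab hno
        obtain ⟨a1, a2, a3⟩ := Low.mem_na.mp ha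
        obtain ⟨b1, b2, b3⟩ := Low.mem_na.mp hb
        obtain ⟨-, -, hgx, -⟩ := con_link h hab hno hx a2.symm b2.symm a3 b3
        have hcd : (lv (W1.con S a b) ∅).card < (lv S ∅).card := by
          rw [W1.lv_con h.down a b hab.1 hab.2]
          exact Finset.card_erase_lt_of_mem b1
        obtain ⟨T, t1, t2⟩ := ih (lv (W1.con S a b) ∅).card (by omega) c1
          (by rw [← c5, hgx, hf0]) rfl
        exact ⟨T, OR.step S T a b hab.1 (Finset.notMem_empty a) (Finset.notMem_empty b) hab.2 hno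
          c4 t1, t2⟩
  · rintro ⟨T, ho, hc⟩
    obtain ⟨h1, h2, -⟩ := OR.keep (by omega) ho h
    rw [← h2]
    exact cross_gg h1 ((cross_iff h1).mp hc)

end Pool.Agent.MP19e880.LD
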