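import Pool.Agent.Lib.MP_19e880_co_LD.Sg
import Pool.Agent.Lib.MP_19e880_co_LD.Or

/-!
The final statements.
-/

set_option autoImplicit false
set_option linter.unusedSectionVars false
set_option linter.unusedVariables false

namespace Pool.Agent.MP19e880.LD

open Pool.Agent.MP19e880 Pool.Agent.MP19e880.W1 Pool.Agent.MP19e880.FV Polynomial

variable {V : Type} [Fintype V] [LinearOrder V] {k : Type} [Field k]

/-- The number of faces with `j` vertices. -/
def fm (L : Finset (Finset V)) (j : ℕ) : ℤ := ((L.filter (fun G => G.card = j)).card : ℤ)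

/-- The second entry of the gamma vector of the link of `F`. -/
def gt (S : Finset (Finset V)) (d : ℕ) (F : Finset V) : ℤ :=
  fm (lkF S F) 2 - (2 * ((d : ℤ) - F.card) - 3) * fm (lkF S F) 1 +
    2 * ((d : ℤ) - F.card) * ((d : ℤ) - F.card - 2)

theorem fm_lk {S : Finset (Finset V)} {d : ℕ} (h : HS k S d) (F : Finset V) (j : ℕ) :
    fm (lkF S F) j = fn S F j := by
  unfold fm lkF
  rw [G2.fn_link h.down]

theorem gt_gg {S : Finset (Finset V)} {d : ℕ} (h : HS k S d) {F : Finset V} (hF : F ∈ S) :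
    2 * gt S d F = gg S (d - F.card) F := by
  have hE := TT.eul_of_hs h
  have hc := h.card_le F hF
  unfold gt gg Low.Fam.g2
  rw [fm_lk h, fm_lk h, G2.dg_face h hE, fn_one S hE.down]
  push_cast [Nat.cast_sub hc]
  ring

theorem gt_g {S : Finset (Finset V)} {d : ℕ} (h : HS k S d) {g : Finset V → ℕ → ℤ}
    (hg : G3.GV S d g) {F : Finset V} (hF : F ∈ S) (hd : F.card + 4 ≤ d) : gt S d F = g F 2 := by
  have hE := TT.eul_of_hs h
  have h1 := gt_gg h hF
  have h2 := G3.two_g2 h hE hg F hF (d - F.card) (by omega) (by omega)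
  unfold gg at h1
  rw [h2] at h1
  linarith

theorem agree {S : Finset (Finset V)} {d : ℕ} (h : HS k S d) {g : Finset V → ℕ → ℤ}
    (hg : G3.GV S d g) {F : Finset V} (hF : F ∈ S) (γ : ℕ → ℤ)
    (hγ : ∑ j ∈ Finset.range (d - F.card + 1),
        C ((((lkF S F).filter (fun G => G.card = j)).card : ℕ) : ℤ) * X ^ j *
          (1 - X) ^ (d - F.card - j) =
      ∑ i ∈ Finset.range ((d - F.card) / 2 + 1),
        C (γ i) * X ^ i * (1 + X : ℤ[X]) ^ (d - F.card - 2 * i)) :
    ∀ i, i ≤ (d - F.card) / 2 → γ i = g F i := by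
  have hE := TT.eul_of_hs h
  have hc := h.card_le F hF
  intro i hi
  have h1 := (hg F hF).2
  rw [hE.H_sum' F hF (d - F.card) (by omega)] at h1
  have h2 : ∑ j ∈ Finset.range (d - F.card + 1),
      C (fn S F j : ℤ) * (X ^ j * (1 - X) ^ (d - F.card - j)) =
      ∑ i ∈ Finset.range ((d - F.card) / 2 + 1),
        C (γ i) * X ^ i * (1 + X : ℤ[X]) ^ (d - F.card - 2 * i) := by
    rw [← hγ]
    refine Finset.sum_congr rfl fun j _ => ?_
    have h3 : ((((lkF S F).filter (fun G => G.card = j)).card : ℕ) : ℤ) = fn S F j := fm_lk h F j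
    rw [h3, mul_assoc]
  have h4 := Cone.unique_zero (d - F.card) ((d - F.card) / 2 + 1) (fun i => γ i - g F i) (by
    have h3 : ∀ i ∈ Finset.range ((d - F.card) / 2 + 1), C (γ i - g F i) * X ^ i *
        (1 + X : ℤ[X]) ^ (d - F.card - 2 * i) = C (γ i) * X ^ i * (1 + X) ^ (d - F.card - 2 * i) -
        C (g F i) * X ^ i * (1 + X) ^ (d - F.card - 2 * i) := by
      intro i _
      rw [C_sub]
      ring
    rw [Finset.sum_congr rfl h3, Finset.sum_sub_distrib, ← h1, ← h2]
    simp only [sub_self]) i (by omega)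
  linarith

end Pool.Agent.MP19e880.LD
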