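import Pool.Agent.Lib.MP_19e880_co_LD.Ld
import Pool.Agent.Lib.MP_19e880_co_TT.EulHS

/-!
The local degree theorem for the gamma vector.
-/

set_option autoImplicit false
set_option linter.unusedSectionVars false

namespace Pool.Agent.MP19e880.LD

open Pool.Agent.MP19e880 Pool.Agent.MP19e880.W1 Polynomial

variable {V : Type} [Fintype V] [LinearOrder V] {k : Type} [Field k]

/-- The last entry of the gamma vector of the link of `σ`. -/
theorem top_lk {S : Finset (Finset V)} {d : ℕ} (h : HS k S d) {g : Finset V → ℕ → ℤ}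
    (hg : G3.GV S d g) {σ : Finset V} (hσ : σ ∈ S) (m : ℕ) (hm : σ.card + 2 * m = d) :
    ∑ F ∈ lkF S σ, (-2 : ℤ) ^ (2 * m - F.card) = 0 ↔ g σ m = 0 := by
  rw [top_gamma hg σ hσ m hm, lk_sum h.down σ (2 * m) d hm]
  constructor
  · intro h1
    rw [h1, mul_zero]
  · intro h1
    exact (mul_eq_zero.mp h1).resolve_left (pow_ne_zero _ (by norm_num))

theorem ld_gamma {S : Finset (Finset V)} {d : ℕ} (h : HS k S d) {g : Finset V → ℕ → ℤ}
    (hg : G3.GV S d g) {p : ℕ} (hp : 1 ≤ p)
    (h1 : ∀ σ ∈ S, d ≤ σ.card + (2 * p + 2) →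
      GV k (ad (lkF S σ)) (lv (lkF S σ) ∅) ((d - σ.card + 1) / 2))
    (h2 : ∀ σ ∈ S, σ.card + (2 * p + 2) = d → g σ (p + 1) = 0) :
    ∀ (e : ℕ) (σ : Finset V), σ ∈ S → σ.card + e = d → 2 * p + 1 ≤ e →
      ∀ i, p + 1 ≤ i → g σ i = 0 := by
  have hE : Eul S d := TT.eul_of_hs h
  have hl : Loc k p d S := ⟨h1, fun σ hσ hc => by
    have h3 := (top_lk h hg hσ (p + 1) (by omega)).2 (h2 σ hσ hc)
    rwa [show 2 * (p + 1) = 2 * p + 2 by ring] at h3⟩
  intro e
  induction e using Nat.strong_induction_on with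
  | _ e ih =>
    intro σ hσ he h2p i hi
    by_cases hbig : e < 2 * i
    · exact (hg σ hσ).1 i (by omega)
    by_cases he2 : e = 2 * p + 2
    · have hip : i = p + 1 := by omega
      rw [hip]
      exact h2 σ hσ (by omega)
    have he3 : 2 * p + 3 ≤ e := by omega
    have hsum : ∀ j, p + 1 ≤ j →
        (2 * (e : ℤ) - 4 * j) * g σ j + (j + 1) * g σ (j + 1) = 0 := by
      intro j hj
      rw [← G3.gamma_sum hE g hg σ hσ e he (by omega) j]
      refine Finset.sum_eq_zero fun v hv => ?_
      have hv' : v ∉ σ ∧ insert v σ ∈ S := by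
        unfold lv at hv
        rw [Finset.mem_filter] at hv
        exact hv.2
      refine ih (e - 1) (by omega) (insert v σ) hv'.2 ?_ (by omega) j hj
      rw [Finset.card_insert_of_notMem hv'.1]
      omega
    have htop : ∀ m, e = 2 * m → g σ m = 0 := by
      intro m hm
      rw [← top_lk h hg hσ m (by omega)]
      have hd : d - σ.card = 2 * m := by omega
      have hs := hs_lk h σ hσ
      rw [hd] at hs
      have hl' := Loc.lk h hl hσ
      rw [hd] at hl'
      exact sum_zero hs ((ld hp (2 * m) (lkF S σ) hs hl').2 (by omega))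
    have key : ∀ n j, j + n = e / 2 + 1 → p + 1 ≤ j → g σ j = 0 := by
      intro n
      induction n with
      | zero =>
        intro j hj _
        exact (hg σ hσ).1 j (by omega)
      | succ n ihn =>
        intro j hj hpj
        have h3 := ihn (j + 1) (by omega) (by omega)
        have h4 := hsum j hpj
        rw [h3, mul_zero, add_zero] at h4
        rcases mul_eq_zero.1 h4 with h5 | h5
        · exact htop j (by omega)
        · exact h5
    exact key (e / 2 + 1 - i) i (by omega) hi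

/-- The case `p = 1`. -/
theorem ld_one {S : Finset (Finset V)} {d : ℕ} (h : HS k S d) {g : Finset V → ℕ → ℤ}
    (hg : G3.GV S d g) (h2 : ∀ σ ∈ S, σ.card + 4 = d → g σ 2 = 0) :
    ∀ (e : ℕ) (σ : Finset V), σ ∈ S → σ.card + e = d → 4 ≤ e → ∀ i, 2 ≤ i → g σ i = 0 := by
  intro e σ hσ he h4 i hi
  refine ld_gamma h hg (p := 1) le_rfl ?_ h2 e σ hσ he (by omega) i hi
  intro τ hτ hd
  exact red_gv (Cert.low (d - τ.card) _ _ (by omega) (by omega)) (hs_lk h τ hτ)

end Pool.Agent.MP19e880.LD
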