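import Pool.Agent.Lib.MP_19e880_co_W1.AddV

/-!
Exactness in a single degree: adding and deleting a vertex.
-/

set_option autoImplicit false
set_option linter.unusedSectionVars false

namespace Pool.Agent.MP19e880.LD

open Pool.Agent.MP19e880.W1

variable {V : Type} [Fintype V] [LinearOrder V] {K : Type} [Field K]
  {M : Type} [AddCommGroup M] [Module K M]

open AddvAux in
/-- Exactness in degree `j + 1` for the graph on `insert x T`, from `T` and the neighbours
of `x`. -/
theorem ex_add {H : V → V → Prop} (hH : ∀ a b, H a b → H b a) {T : Finset V} {x : V}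
    (hx : x ∉ T) {ψ : V → M →ₗ[K] M} (hOk : Ok (Cl H (insert x T)) ψ)
    {ψ' : V → LinearMap.ker (ψ x) →ₗ[K] LinearMap.ker (ψ x)}
    (hcoe : ∀ v ∈ nh H T x, ∀ m, ((ψ' v m : LinearMap.ker (ψ x)) : M) = ψ v m) {j : ℕ}
    (h1 : ExAt (Cl H T) ψ (j + 1)) (h2 : ExAt (Cl H (nh H T x)) ψ' j) :
    ExAt (Cl H (insert x T)) ψ (j + 1) := by
  classical
  intro z hz hdz
  have hQx : ∀ F, Cl H T F → x ∉ F := fun F hF h' => hx (hF.1 h')
  have hNx : x ∉ nh H T x := fun h' => (mem_nh.mp h').2.1 rfl
  have hRx : ∀ F, Cl H (nh H T x) F → x ∉ F := fun F hF h' => hNx (hF.1 h')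
  -- the restriction to the faces of `T`
  set z0 : Finset V → M := fun F => if x ∈ F then 0 else z F with hz0
  have hz0a : ∀ F, x ∈ F → z0 F = 0 := fun F hF => if_pos hF
  have hz0n : ∀ F, x ∉ F → z0 F = z F := fun F hF => if_neg hF
  have c1 : Co (Cl H T) ψ (j + 1) z0 := by
    intro F hF
    have hxF : x ∉ F := fun h' => hF (hz0a F h')
    rw [hz0n F hxF] at hF ⊢
    obtain ⟨e1, e2, e3⟩ := hz F hF
    exact ⟨(cl_out hxF).mp e1, e2, e3⟩
  have c2 : dl (Cl H T) ψ z0 = 0 := by
    funext G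
    by_cases hG : Cl H T G
    · have hxG := hQx G hG
      have e1 : dl (Cl H (insert x T)) ψ z G = 0 := by rw [hdz, Pi.zero_apply]
      rw [dl_pos ((cl_out hxG).mpr hG)] at e1
      rw [dl_pos hG, Pi.zero_apply]
      refine Eq.trans (Finset.sum_congr rfl fun v _ => ?_) e1
      rw [hz0n _ (fun h' => hxG (Finset.mem_of_mem_erase h'))]
    · rw [dl_neg hG, Pi.zero_apply]
  obtain ⟨y, hy1, hy2⟩ := h1 z0 c1 c2
  have hyk : ∀ F, ∀ v ∈ F, ψ v (y F) = 0 := by
    intro F v hv
    by_cases h' : y F = 0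
    · rw [h', map_zero]
    · exact (hy1 F h').2.2 v hv
  set z' : Finset V → M := z - dl (Cl H (insert x T)) ψ y with hz'
  have d0 : ∀ F, ¬ Cl H (insert x T) F → z' F = 0 := by
    intro F hF
    rw [hz', Pi.sub_apply, hz.off hF, dl_neg hF, sub_zero]
  have d1 : ∀ F, x ∉ F → z' F = 0 := by
    intro F hxF
    by_cases hF : Cl H (insert x T) F
    · have hF' : Cl H T F := (cl_out hxF).mp hF
      have e1 := congrFun hy2 F
      rw [dl_pos hF', hz0n F hxF] at e1
      rw [hz', Pi.sub_apply, dl_pos hF, e1, sub_self]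
    · exact d0 F hF
  have d2 : dl (Cl H (insert x T)) ψ z' = 0 := by
    rw [hz', dl_sub, hdz, dl_dl hOk, sub_zero]
  have hyco : Co (Cl H (insert x T)) ψ j y := by
    intro F hF
    obtain ⟨e1, e2, e3⟩ := hy1 F hF
    exact ⟨e1.mono (Finset.subset_insert x T), by omega, e3⟩
  have hz'co : Co (Cl H (insert x T)) ψ (j + 1) z' := hz.sub (dl_co hOk hyco)
  have kx : ∀ F, ψ x (if x ∈ F then 0 else z' (insert x F)) = 0 := by
    intro F
    by_cases hxF : x ∈ F
    · rw [if_pos hxF, map_zero]
    · rw [if_neg hxF]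
      exact hz'co.kill (Finset.mem_insert_self x F)
  set u : Finset V → LinearMap.ker (ψ x) :=
    fun F => ⟨if x ∈ F then 0 else z' (insert x F), LinearMap.mem_ker.mpr (kx F)⟩ with hu
  have hun : ∀ F, x ∉ F → ((u F : LinearMap.ker (ψ x)) : M) = z' (insert x F) :=
    fun F hF => if_neg hF
  have hua : ∀ F, x ∈ F → u F = 0 := fun F hF => Subtype.ext (if_pos hF)
  have uco : Co (Cl H (nh H T x)) ψ' j u := by
    intro F hF
    have hxF : x ∉ F := fun h' => hF (hua F h')
    have hF' : z' (insert x F) ≠ 0 := by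
      intro h'
      apply hF
      apply Subtype.ext
      rw [hun F hxF, h', Submodule.coe_zero]
    obtain ⟨e1, e2, e3⟩ := hz'co _ hF'
    have e4 : Cl H (nh H T x) F := (cl_ins hH hxF).mp e1
    rw [Finset.card_insert_of_notMem hxF] at e2
    refine ⟨e4, by omega, fun v hv => ?_⟩
    apply Subtype.ext
    rw [hcoe v (e4.1 hv), hun F hxF, e3 v (Finset.mem_insert_of_mem hv), Submodule.coe_zero]
  have ud : dl (Cl H (nh H T x)) ψ' u = 0 := by
    funext G
    by_cases hG : Cl H (nh H T x) G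
    · have hxG := hRx G hG
      rw [dl_pos hG, Pi.zero_apply]
      apply Subtype.ext
      rw [Submodule.coe_sum, Submodule.coe_zero]
      have e1 : dl (Cl H (insert x T)) ψ z' (insert x G) = 0 := by rw [d2]; rfl
      rw [dl_pos ((cl_ins hH hxG).mpr hG), Finset.sum_insert hxG, Finset.erase_insert hxG,
        d1 G hxG, map_zero, zero_add] at e1
      refine Eq.trans (Finset.sum_congr rfl fun v hv => ?_) e1
      have hvx : x ≠ v := fun h' => hxG (h' ▸ hv)
      rw [hcoe v (hG.1 hv), hun _ (fun h' => hxG (Finset.mem_of_mem_erase h')),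
        Finset.erase_insert_of_ne hvx]
    · rw [dl_neg hG, Pi.zero_apply]
  obtain ⟨w, hw1, hw2⟩ := h2 u uco ud
  set wt : Finset V → M := fun F => if x ∈ F then (w (F.erase x) : M) else 0 with hwt
  have hwta : ∀ F, x ∈ F → wt F = w (F.erase x) := fun F hF => if_pos hF
  have hwtn : ∀ F, x ∉ F → wt F = 0 := fun F hF => if_neg hF
  have wtk : ∀ F, wt F ≠ 0 → Cl H (insert x T) F ∧ F.card + 1 = j + 1 ∧
      ∀ v ∈ F, ψ v (wt F) = 0 := by
    intro F hF
    have hxF : x ∈ F := by
      by_contra h'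
      exact hF (hwtn F h')
    rw [hwta F hxF] at hF ⊢
    have hF' : w (F.erase x) ≠ 0 := by
      intro h'
      apply hF
      rw [h', Submodule.coe_zero]
    obtain ⟨e1, e2, e3⟩ := hw1 _ hF'
    refine ⟨?_, ?_, fun v hv => ?_⟩
    · have e4 := (cl_ins hH (Finset.notMem_erase x F)).mpr e1
      rwa [Finset.insert_erase hxF] at e4
    · have e5 := Finset.card_erase_add_one hxF
      omega
    · by_cases hvx : v = x
      · rw [hvx]
        exact LinearMap.mem_ker.mp (w (F.erase x)).2
      · have hv' : v ∈ F.erase x := Finset.mem_erase.mpr ⟨hvx, hv⟩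
        rw [← hcoe v (e1.1 hv'), e3 v hv', Submodule.coe_zero]
  have wtd : dl (Cl H (insert x T)) ψ wt = z' := by
    funext G
    by_cases hG : Cl H (insert x T) G
    · by_cases hxG : x ∈ G
      · have hG' : Cl H (nh H T x) (G.erase x) := by
          rw [← cl_ins hH (Finset.notMem_erase x G), Finset.insert_erase hxG]
          exact hG
        rw [dl_pos hG, ← Finset.add_sum_erase G _ hxG]
        rw [hwtn _ (Finset.notMem_erase x G), map_zero, zero_add]
        have e1 := congrArg Subtype.val (congrFun hw2 (G.erase x))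
        rw [hun _ (Finset.notMem_erase x G), Finset.insert_erase hxG] at e1
        rw [dl_pos hG', Submodule.coe_sum] at e1
        refine Eq.trans (Finset.sum_congr rfl fun v hv => ?_) e1
        have hvx : v ≠ x := (Finset.mem_erase.mp hv).1
        rw [hcoe v (hG'.1 hv), hwta _ (Finset.mem_erase.mpr ⟨hvx.symm, hxG⟩),
          Finset.erase_right_comm]
      · rw [dl_pos hG, d1 G hxG]
        refine Finset.sum_eq_zero fun v _ => ?_
        rw [hwtn _ (fun h' => hxG (Finset.mem_of_mem_erase h')), map_zero]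
    · rw [dl_neg hG, d0 G hG]
  refine ⟨y + wt, ?_, ?_⟩
  · intro F hF
    have k1 : ∀ v ∈ F, ψ v (wt F) = 0 := by
      intro v hv
      by_cases h' : wt F = 0
      · rw [h', map_zero]
      · exact (wtk F h').2.2 v hv
    have k2 : Cl H (insert x T) F ∧ F.card + 1 = j + 1 := by
      by_cases h' : wt F = 0
      · have h'' : y F ≠ 0 := by
          intro h3
          apply hF
          rw [Pi.add_apply, h3, h', add_zero]
        exact ⟨(hy1 F h'').1.mono (Finset.subset_insert x T), (hy1 F h'').2.1⟩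
      · exact ⟨(wtk F h').1, (wtk F h').2.1⟩
    refine ⟨k2.1, k2.2, fun v hv => ?_⟩
    rw [Pi.add_apply, map_add, hyk F v hv, k1 v hv, add_zero]
  · rw [dl_add, wtd, hz']
    abel

open AddvAux in
/-- Exactness in degree `j` for the graph on `T`, from `insert x T` and the neighbours of `x`. -/
theorem ex_del {H : V → V → Prop} (hH : ∀ a b, H a b → H b a) {T : Finset V} {x : V}
    (hx : x ∉ T) {ψ : V → M →ₗ[K] M} (hOk : Ok (Cl H (insert x T)) ψ)
    {ψ' : V → LinearMap.ker (ψ x) →ₗ[K] LinearMap.ker (ψ x)}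
    (hcoe : ∀ v ∈ nh H T x, ∀ m, ((ψ' v m : LinearMap.ker (ψ x)) : M) = ψ v m) {j : ℕ}
    (h1 : ExAt (Cl H (insert x T)) ψ j) (h2 : ExAt (Cl H (nh H T x)) ψ' j) :
    ExAt (Cl H T) ψ j := by
  classical
  intro z hz hdz
  have hxT : x ∈ insert x T := Finset.mem_insert_self x T
  have hQx : ∀ F, Cl H T F → x ∉ F := fun F hF h' => hx (hF.1 h')
  have hNx : x ∉ nh H T x := fun h' => (mem_nh.mp h').2.1 rfl
  have hRx : ∀ F, Cl H (nh H T x) F → x ∉ F := fun F hF h' => hNx (hF.1 h')
  have hNQ : ∀ F, Cl H (nh H T x) F → Cl H T F := fun F hF =>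
    hF.mono fun w hw => (mem_nh.mp hw).1
  have hzx : ∀ F, x ∈ F → z F = 0 := fun F hF => hz.off fun h' => hQx F h' hF
  have hclx : Cl H (insert x T) {x} := by
    refine ⟨Finset.singleton_subset_iff.mpr hxT, fun a ha b hb hab => ?_⟩
    rw [Finset.mem_singleton] at ha hb
    exact absurd (ha.trans hb.symm) hab
  have hsq : ∀ m, ψ x (ψ x m) = 0 := fun m => hOk.sq _ hclx x (Finset.mem_singleton_self x) m
  have hac : ∀ F, Cl H (nh H T x) F → ∀ v ∈ F, ∀ m, ψ v (ψ x m) = - ψ x (ψ v m) := by
    intro F hF v hv m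
    have hxF := hRx F hF
    have hvx : v ≠ x := fun h' => hxF (h' ▸ hv)
    have e1 := hOk.ac _ ((cl_ins hH hxF).mpr hF) v (Finset.mem_insert_of_mem hv) x
      (Finset.mem_insert_self x F) hvx m
    exact eq_neg_of_add_eq_zero_left e1
  -- the cochain on the neighbours
  set u : Finset V → LinearMap.ker (ψ x) := fun F =>
    if Cl H (nh H T x) F then ⟨ψ x (z F), LinearMap.mem_ker.mpr (hsq _)⟩ else 0 with hu
  have hua : ∀ F, Cl H (nh H T x) F → ((u F : LinearMap.ker (ψ x)) : M) = ψ x (z F) := by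
    intro F hF
    rw [hu]
    simp only [if_pos hF]
  have hun : ∀ F, ¬ Cl H (nh H T x) F → u F = 0 := fun F hF => if_neg hF
  have uco : Co (Cl H (nh H T x)) ψ' j u := by
    intro F hF
    have hcl : Cl H (nh H T x) F := by
      by_contra h'
      exact hF (hun F h')
    have hzF : z F ≠ 0 := by
      intro h'
      apply hF
      apply Subtype.ext
      rw [hua F hcl, h', map_zero, Submodule.coe_zero]
    obtain ⟨e1, e2, e3⟩ := hz F hzF
    refine ⟨hcl, e2, fun v hv => ?_⟩
    apply Subtype.ext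
    rw [hcoe v (hcl.1 hv), hua F hcl, hac F hcl v hv, e3 v hv, map_zero, neg_zero,
      Submodule.coe_zero]
  have ud : dl (Cl H (nh H T x)) ψ' u = 0 := by
    funext G
    by_cases hG : Cl H (nh H T x) G
    · rw [dl_pos hG, Pi.zero_apply]
      apply Subtype.ext
      rw [Submodule.coe_sum, Submodule.coe_zero]
      have e1 : dl (Cl H T) ψ z G = 0 := by rw [hdz]; rfl
      rw [dl_pos (hNQ G hG)] at e1
      have e2 : ∀ v ∈ G, ((ψ' v (u (G.erase v)) : LinearMap.ker (ψ x)) : M) =
          - ψ x (ψ v (z (G.erase v))) := by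
        intro v hv
        rw [hcoe v (hG.1 hv), hua _ (hG.down (Finset.erase_subset v G)), hac G hG v hv]
      rw [Finset.sum_congr rfl e2, Finset.sum_neg_distrib, ← map_sum, e1, map_zero, neg_zero]
    · rw [dl_neg hG, Pi.zero_apply]
  obtain ⟨w, hw1, hw2⟩ := h2 u uco ud
  set wt : Finset V → M := fun F => if x ∈ F then (w (F.erase x) : M) else 0 with hwt
  have hwta : ∀ F, x ∈ F → wt F = w (F.erase x) := fun F hF => if_pos hF
  have hwtn : ∀ F, x ∉ F → wt F = 0 := fun F hF => if_neg hF
  have wtco : Co (Cl H (insert x T)) ψ j wt := by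
    intro F hF
    have hxF : x ∈ F := by
      by_contra h'
      exact hF (hwtn F h')
    rw [hwta F hxF] at hF ⊢
    have hF' : w (F.erase x) ≠ 0 := by
      intro h'
      apply hF
      rw [h', Submodule.coe_zero]
    obtain ⟨e1, e2, e3⟩ := hw1 _ hF'
    refine ⟨?_, ?_, fun v hv => ?_⟩
    · have e4 := (cl_ins hH (Finset.notMem_erase x F)).mpr e1
      rwa [Finset.insert_erase hxF] at e4
    · have e5 := Finset.card_erase_add_one hxF
      omega
    · by_cases hvx : v = x
      · rw [hvx]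
        exact LinearMap.mem_ker.mp (w (F.erase x)).2
      · have hv' : v ∈ F.erase x := Finset.mem_erase.mpr ⟨hvx, hv⟩
        rw [← hcoe v (e1.1 hv'), e3 v hv', Submodule.coe_zero]
  have hZco : Co (Cl H (insert x T)) ψ j (z - wt) := by
    refine Co.sub ?_ wtco
    intro F hF
    obtain ⟨e1, e2, e3⟩ := hz F hF
    exact ⟨e1.mono (Finset.subset_insert x T), e2, e3⟩
  have hZd : dl (Cl H (insert x T)) ψ (z - wt) = 0 := by
    funext G
    by_cases hG : Cl H (insert x T) G
    · by_cases hxG : x ∈ G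
      · have hG' : Cl H (nh H T x) (G.erase x) := by
          rw [← cl_ins hH (Finset.notMem_erase x G), Finset.insert_erase hxG]
          exact hG
        rw [dl_pos hG, ← Finset.add_sum_erase G _ hxG, Pi.sub_apply,
          hwtn _ (Finset.notMem_erase x G), sub_zero, Pi.zero_apply]
        have e1 := congrArg Subtype.val (congrFun hw2 (G.erase x))
        rw [hua _ hG', dl_pos hG', Submodule.coe_sum] at e1
        rw [← e1, ← Finset.sum_add_distrib]
        refine Finset.sum_eq_zero fun v hv => ?_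
        have hvx : v ≠ x := (Finset.mem_erase.mp hv).1
        have hxv : x ∈ G.erase v := Finset.mem_erase.mpr ⟨hvx.symm, hxG⟩
        rw [hcoe v (hG'.1 hv), Pi.sub_apply, hzx _ hxv, zero_sub, hwta _ hxv,
          Finset.erase_right_comm, map_neg, add_neg_cancel]
      · have hG' : Cl H T G := (cl_out hxG).mp hG
        have e1 : dl (Cl H T) ψ z G = 0 := by rw [hdz]; rfl
        rw [dl_pos hG'] at e1
        rw [dl_pos hG, Pi.zero_apply]
        refine Eq.trans (Finset.sum_congr rfl fun v _ => ?_) e1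
        rw [Pi.sub_apply, hwtn _ (fun h' => hxG (Finset.mem_of_mem_erase h')), sub_zero]
    · rw [dl_neg hG, Pi.zero_apply]
  obtain ⟨y, hy1, hy2⟩ := h1 _ hZco hZd
  refine ⟨fun F => if x ∈ F then 0 else y F, ?_, ?_⟩
  · intro F hF
    have hxF : x ∉ F := fun h' => hF (if_pos h')
    simp only [if_neg hxF] at hF ⊢
    obtain ⟨e1, e2, e3⟩ := hy1 F hF
    exact ⟨(cl_out hxF).mp e1, e2, e3⟩
  · funext G
    by_cases hG : Cl H T G
    · have hxG := hQx G hG
      have e1 := congrFun hy2 G
      rw [dl_pos ((cl_out hxG).mpr hG), Pi.sub_apply, hwtn G hxG, sub_zero] at e1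
      rw [dl_pos hG]
      refine Eq.trans (Finset.sum_congr rfl fun v _ => ?_) e1
      rw [if_neg (fun h' => hxG (Finset.mem_of_mem_erase h'))]
    · rw [dl_neg hG, hz.off hG]

end Pool.Agent.MP19e880.LD
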