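import Pool.Agent.Lib.MP_19e880_co_LD.Ex

/-!
Exactness in high degrees for all full subgraphs.
-/

set_option autoImplicit false
set_option linter.unusedSectionVars false

namespace Pool.Agent.MP19e880.LD

open Pool.Agent.MP19e880.W1

variable {V : Type} [Fintype V] [LinearOrder V] {K : Type} [Field K]

/-- Exactness in the degrees `j` with `p ≤ j` for the full subgraphs on all subsets of `X`, for
modules with the relations on `X`. -/
def HV (g : V → V → K) (A : V → V → Prop) (X : Finset V) (p : ℕ) : Prop :=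
  ∀ (M : Type) [AddCommGroup M] [Module K M] (ψ φ : V → M →ₗ[K] M), Rel g X ψ φ →
    ∀ Y : Finset V, Y ⊆ X → ∀ j, p ≤ j → ExAt (Cl A Y) ψ j

/-- The neighbours of `x` in a smaller set. -/
private theorem nh_sub {A : V → V → Prop} {T X : Finset V} {x : V} (h : T ⊆ X) :
    nh A T x ⊆ nh A X x := by
  intro w hw
  obtain ⟨h1, h2, h3⟩ := AddvAux.mem_nh.mp hw
  exact AddvAux.mem_nh.mpr ⟨h h1, h2, h3⟩

private theorem ok_sub {g : V → V → K} {A : V → V → Prop} {X Y : Finset V}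
    (hg : ∀ a ∈ X, ∀ b ∈ X, a ≠ b → A a b → g a b = 0) {M : Type} [AddCommGroup M] [Module K M]
    {ψ φ : V → M →ₗ[K] M} (hR : Rel g X ψ φ) (hY : Y ⊆ X) : Ok (Cl A Y) ψ :=
  Ok.of_rel (hR.mono hY) (fun a ha b hb hab h => hg a (hY ha) b (hY hb) hab h)

private theorem relAt {g : V → V → K} {A : V → V → Prop} (hA : ∀ a b, A a b → A b a)
    {X : Finset V} (hg : ∀ a ∈ X, ∀ b ∈ X, a ≠ b → A a b → g a b = 0)
    {M : Type} [AddCommGroup M] [Module K M]
    {ψ φ : V → M →ₗ[K] M} (hR : Rel g X ψ φ) {x : V} (hx : x ∈ X) :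
    ∃ ψ' φ' : V → LinearMap.ker (ψ x) →ₗ[K] LinearMap.ker (ψ x),
      Rel g (nh A X x) ψ' φ' ∧
        ∀ v ∈ nh A X x, ∀ m, ((ψ' v m : LinearMap.ker (ψ x)) : M) = ψ v m := by
  refine rel_ker hR x hx (fun w hw => (AddvAux.mem_nh.mp hw).1)
    (fun h' => (AddvAux.mem_nh.mp h').2.1 rfl) (fun v hv => ?_)
  obtain ⟨e1, e2, e3⟩ := AddvAux.mem_nh.mp hv
  exact hg v e1 x hx e2 (hA _ _ e3)

theorem HV.congr {g g' : V → V → K} {A A' : V → V → Prop} {X : Finset V} {p : ℕ}
    (h : HV g A X p) (hg : ∀ a ∈ X, ∀ b ∈ X, a ≠ b → g a b = g' a b)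
    (hA : ∀ a ∈ X, ∀ b ∈ X, a ≠ b → (A a b ↔ A' a b)) : HV g' A' X p := by
  intro M _ _ ψ φ hR Y hY j hj
  rw [← cl_congr (A := A) (A' := A') (X := Y)
    (fun a ha b hb hab => hA a (hY ha) b (hY hb) hab)]
  refine h M ψ φ ?_ Y hY j hj
  exact ⟨hR.sq, fun u hu v hv huv x => by rw [hg u hu v hv huv]; exact hR.ac u hu v hv huv x,
    hR.one, hR.zer, hR.psq, hR.pac⟩

theorem HV.mono {g : V → V → K} {A : V → V → Prop} {X : Finset V} {p q : ℕ}
    (h : HV g A X p) (hpq : p ≤ q) : HV g A X q := by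
  intro M _ _ ψ φ hR Y hY j hj
  exact h M ψ φ hR Y hY j (hpq.trans hj)

/-- Building up the subgraph vertex by vertex. -/
theorem hv_up {g : V → V → K} {A : V → V → Prop} (hA : ∀ a b, A a b → A b a) {X : Finset V}
    (hg : ∀ a ∈ X, ∀ b ∈ X, a ≠ b → A a b → g a b = 0) {p : ℕ}
    (h : ∀ v ∈ X, HV g A (nh A X v) p) : HV g A X (p + 1) := by
  classical
  intro M _ _ ψ φ hR Y
  induction Y using Finset.induction_on with
  | empty =>
    intro _ j hj x hx _
    have e : x = 0 := by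
      funext F
      by_contra h'
      obtain ⟨h1, h2, _⟩ := hx F h'
      have h3 : F = ∅ := Finset.subset_empty.mp h1.1
      rw [h3, Finset.card_empty] at h2
      omega
    exact ⟨0, fun F hF => absurd rfl hF, by rw [dl_zero, e]⟩
  | insert x T hx ih =>
    intro hY j hj
    obtain ⟨j', rfl⟩ : ∃ j', j = j' + 1 := ⟨j - 1, by omega⟩
    have hxX : x ∈ X := hY (Finset.mem_insert_self x T)
    have hTX : T ⊆ X := fun w hw => hY (Finset.mem_insert_of_mem hw)
    obtain ⟨ψ', φ', hrel, hcoe⟩ := relAt hA hg hR hxX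
    refine ex_add hA hx (ok_sub hg hR hY) (ψ' := ψ')
      (fun v hv m => hcoe v (nh_sub hTX hv) m) (ih hTX (j' + 1) hj) ?_
    exact h x hxX _ ψ' φ' hrel _ (nh_sub hTX) j' (by omega)

/-- Deleting vertices from `X` one by one. -/
theorem hv_down {g : V → V → K} {A : V → V → Prop} (hA : ∀ a b, A a b → A b a) {X : Finset V}
    (hg : ∀ a ∈ X, ∀ b ∈ X, a ≠ b → A a b → g a b = 0) {p : ℕ}
    (h0 : ∀ (M : Type) [AddCommGroup M] [Module K M] (ψ φ : V → M →ₗ[K] M), Rel g X ψ φ →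
      ∀ j, p ≤ j → ExAt (Cl A X) ψ j)
    (h : ∀ v ∈ X, HV g A (nh A X v) p) : HV g A X p := by
  classical
  intro M _ _ ψ φ hR
  have key : ∀ n : ℕ, ∀ Y : Finset V, Y ⊆ X → (X \ Y).card = n → ∀ j, p ≤ j →
      ExAt (Cl A Y) ψ j := by
    intro n
    induction n with
    | zero =>
      intro Y hY hc j hj
      have e : Y = X := Finset.Subset.antisymm hY
        (Finset.sdiff_eq_empty_iff_subset.mp (Finset.card_eq_zero.mp hc))
      rw [e]
      exact h0 M ψ φ hR j hj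
    | succ n ih =>
      intro Y hY hc j hj
      obtain ⟨x, hx⟩ : (X \ Y).Nonempty := Finset.card_pos.mp (by omega)
      obtain ⟨hxX, hxY⟩ := Finset.mem_sdiff.mp hx
      have hiX : insert x Y ⊆ X := Finset.insert_subset hxX hY
      have hcard : (X \ insert x Y).card = n := by
        have e1 : X \ insert x Y = (X \ Y).erase x := Finset.sdiff_insert X Y x
        rw [e1, Finset.card_erase_of_mem hx, hc]
        rfl
      obtain ⟨ψ', φ', hrel, hcoe⟩ := relAt hA hg hR hxX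
      refine ex_del hA hxY (ok_sub hg hR hiX) (ψ' := ψ')
        (fun v hv m => hcoe v (nh_sub hY hv) m) (ih _ hiX hcard j hj) ?_
      exact h x hxX _ ψ' φ' hrel _ (nh_sub hY) j hj
  intro Y hY j hj
  exact key _ Y hY rfl j hj

end Pool.Agent.MP19e880.LD
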