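import Pool.Agent.Lib.MP_19e880_co_LD.Hv
import Pool.Agent.Lib.MP_19e880_co_LD.Gvl

/-!
The local degree theorem for the complexes.
-/

set_option autoImplicit false
set_option linter.unusedSectionVars false

namespace Pool.Agent.MP19e880.LD

open Pool.Agent.MP19e880 Pool.Agent.MP19e880.W1

variable {V : Type} [Fintype V] [LinearOrder V] {k : Type} [Field k]

/-- The neighbours of `v` in a link. -/
theorem nh_lv {S : Finset (Finset V)} {d : ℕ} (h : HS k S d) {v : V} (hv : v ∈ lv S ∅) :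
    nh (ad S) (lv S ∅) v = lv S {v} := by
  ext w
  rw [AddvAux.mem_nh, mem_lv0, HslkAux.mem_lv', Finset.mem_singleton]
  unfold ad
  constructor
  · rintro ⟨_, h2, h3⟩
    refine ⟨h2, ?_⟩
    rw [Finset.pair_comm] at h3
    exact h3
  · rintro ⟨h2, h3⟩
    refine ⟨h.down _ h3 _ (by simp), h2, ?_⟩
    rw [Finset.pair_comm]
    exact h3

/-- The vertex links of a sphere, from the standalone links. -/
theorem hv_lk {S : Finset (Finset V)} {d : ℕ} (h : HS k S d) {v : V} (hv : v ∈ lv S ∅) {p : ℕ}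
    (hH : HV (gen k (ad (lkF S {v}))) (ad (lkF S {v})) (lv (lkF S {v}) ∅) p) :
    HV (gen k (ad S)) (ad S) (nh (ad S) (lv S ∅) v) p := by
  have hv' : ({v} : Finset V) ∈ S := (mem_lv0 v).mp hv
  rw [lv_lkF h {v} hv'] at hH
  rw [nh_lv h hv]
  exact hH.congr (fun a ha b hb _ => gen_congr k (ad_lkF h {v} hv' a b ha hb))
    (fun a ha b hb _ => ad_lkF h {v} hv' a b ha hb)

/-- The hypothesis of the local degree theorem: certificates in small ranks, and vanishing of the
alternating sum in rank `2 p + 2`. -/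
structure Loc (k : Type) [Field k] (p d : ℕ) (S : Finset (Finset V)) : Prop where
  gv : ∀ σ ∈ S, d ≤ σ.card + (2 * p + 2) →
    GV k (ad (lkF S σ)) (lv (lkF S σ) ∅) ((d - σ.card + 1) / 2)
  sum : ∀ σ ∈ S, σ.card + (2 * p + 2) = d →
    ∑ F ∈ lkF S σ, (-2 : ℤ) ^ (2 * p + 2 - F.card) = 0

theorem Loc.lk {p d : ℕ} {S : Finset (Finset V)} (h : HS k S d) (hl : Loc k p d S)
    {τ : Finset V} (hτ : τ ∈ S) : Loc k p (d - τ.card) (lkF S τ) := by
  have hτd := h.card_le τ hτ
  refine ⟨?_, ?_⟩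
  · intro σ hσ hc
    obtain ⟨h1, h2, h3⟩ := lkF_lkF h hτ hσ
    have h4 := hl.gv (σ ∪ τ) h2 (by omega)
    rw [h1, show d - τ.card - σ.card = d - (σ ∪ τ).card by omega]
    exact h4
  · intro σ hσ hc
    obtain ⟨h1, h2, h3⟩ := lkF_lkF h hτ hσ
    rw [h1]
    exact hl.sum (σ ∪ τ) h2 (by omega)

theorem ld {p : ℕ} (hp : 1 ≤ p) : ∀ (d : ℕ) (S : Finset (Finset V)), HS k S d → Loc k p d S →
    HV (gen k (ad S)) (ad S) (lv S ∅) (p + 1) ∧
    (2 * p + 1 ≤ d → ∀ n, GV k (ad S) (lv S ∅) n) := by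
  intro d
  induction d using Nat.strong_induction_on with
  | _ d ih =>
  intro S h hl
  have h0 : (∅ : Finset V) ∈ S := HslkAux.empty_mem h
  have hgz : ∀ a ∈ lv S ∅, ∀ b ∈ lv S ∅, a ≠ b → ad S a b → gen k (ad S) a b = 0 :=
    fun a _ b _ _ hab => gen_zero k hab
  -- the certificate of the whole in small ranks
  have hw : d ≤ 2 * p + 2 → GV k (ad S) (lv S ∅) ((d + 1) / 2) := by
    intro hd
    have h1 := hl.gv ∅ h0 (by rw [Finset.card_empty]; omega)
    rw [lkF_empty, Finset.card_empty, Nat.sub_zero] at h1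
    exact h1
  -- the vertex links
  have hvl : ∀ v ∈ lv S ∅, HV (gen k (ad S)) (ad S) (nh (ad S) (lv S ∅) v) (p + 1) := by
    intro v hv
    have hv' : ({v} : Finset V) ∈ S := (mem_lv0 v).mp hv
    have h1 := h.card_le _ hv'
    rw [Finset.card_singleton] at h1
    have h2 := hs_lk h _ hv'
    have h3 := hl.lk h hv'
    rw [Finset.card_singleton] at h2 h3
    exact hv_lk h hv (ih (d - 1) (by omega) _ h2 h3).1
  have hb : 2 * p + 1 ≤ d → ∀ n, GV k (ad S) (lv S ∅) n := by
    intro hd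
    by_cases hd1 : d = 2 * p + 1
    · exact all_of_gv h (hw (by omega)) (by omega)
    by_cases hd2 : d = 2 * p + 2
    · have h1 := hw (by omega)
      have h2 : HS k S (2 * (p + 1)) := by
        rw [show 2 * (p + 1) = d by omega]
        exact h
      rw [show (d + 1) / 2 = p + 1 by omega] at h1
      refine (main h2 h1).2 ?_
      have h3 := hl.sum ∅ h0 (by rw [Finset.card_empty]; omega)
      rw [lkF_empty] at h3
      rw [show 2 * (p + 1) = 2 * p + 2 by omega]
      exact h3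
    -- rank at least `2 p + 3`
    have hG : GV k (ad S) (lv S ∅) ((d + 1) / 2) := by
      refine loc (hs_ext k h) (gen k (ad S)) (fun a b _ hS => gen_zero k hS) ∅ ?_ ?_
      · intro F _ hF
        rw [Finset.subset_empty] at hF
        rw [hF, Finset.card_empty]
        omega
      · intro σ hσ hσ0 _ hσn
        have hpos : 0 < σ.card := Finset.card_pos.mpr (Finset.nonempty_iff_ne_empty.mpr hσ0)
        refine gv_link h σ hσ ?_
        by_cases hσd : 2 * p + 1 ≤ d - σ.card
        · exact (ih (d - σ.card) (by omega) _ (hs_lk h σ hσ) (hl.lk h hσ)).2 hσd _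
        · exact VV.mono (hl.gv σ hσ (by omega)) (by omega)
    rcases Nat.even_or_odd' d with ⟨m, hm | hm⟩
    · rw [show (d + 1) / 2 = m by omega] at hG
      subst hm
      refine all_of_mid h hG ?_
      intro M _ _ ψ φ hR
      exact hv_up (ad_symm S) hgz hvl M ψ φ hR (lv S ∅) (Finset.Subset.refl _) m (by omega)
    · exact all_of_gv h hG (by omega)
  refine ⟨?_, hb⟩
  refine hv_down (ad_symm S) hgz ?_ hvl
  intro M _ _ ψ φ hR j hj
  by_cases hd : 2 * p + 1 ≤ d
  · exact hb hd (j + 1) M ψ φ hR j (Nat.lt_succ_self j)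
  · exact ex_high h (hw (by omega)) ψ φ hR j (by omega)

end Pool.Agent.MP19e880.LD
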